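import Mathlib

set_option autoImplicit false

namespace Pool.Agent.Lib.MP_498a73_pr

open Finset Filter Topology

lemma tendsto_choose_div (N : ℕ → ℕ) (q : ℕ → ℝ) (lam : ℝ) (hN : Tendsto N atTop atTop)
    (h : Tendsto (fun j => (N j : ℝ) / q j) atTop (𝓝 lam)) (r : ℕ) :
    Tendsto (fun j => ((N j).choose r : ℝ) / q j ^ r) atTop (𝓝 (lam ^ r / (r.factorial : ℝ))) := by
  have h1 : Tendsto (fun j => ((N j : ℝ) / q j) ^ r / (r.factorial : ℝ)) atTop
      (𝓝 (lam ^ r / (r.factorial : ℝ))) := (h.pow r).div_const _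
  have h2 := (isEquivalent_choose r).comp_tendsto hN
  have h3 := h2.div (Asymptotics.IsEquivalent.refl (u := fun j => q j ^ r) (l := atTop))
  have h4 := h3.symm.tendsto_nhds (c := lam ^ r / (r.factorial : ℝ)) (by
    refine h1.congr (fun j => ?_)
    simp only [Pi.div_apply, Function.comp_apply]
    rw [div_pow]
    ring)
  exact h4

/-- Analytic core of the method of factorial moments. -/
lemma tendsto_of_bonferroni (p : ℕ → ℝ) (a : ℕ → ℕ → ℕ → ℝ) (e : ℕ → ℕ → ℝ) (lam : ℝ)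
    (ha : ∀ R, ∀ r ≤ R, Tendsto (a R r) atTop (𝓝 (lam ^ r / (r.factorial : ℝ))))
    (he : ∀ R, Tendsto (e R) atTop (𝓝 0))
    (hp : ∀ R, ∀ᶠ j in atTop, |p j - ∑ r ∈ range R, (-1 : ℝ) ^ r * a R r j| ≤ a R R j + e R j) :
    Tendsto p atTop (𝓝 (Real.exp (-lam))) := by
  rw [Metric.tendsto_atTop']
  intro ε hε
  have hs1 : Tendsto (fun R => lam ^ R / (R.factorial : ℝ)) atTop (𝓝 0) :=
    FloorSemiring.tendsto_pow_div_factorial_atTop lam
  have hs2 : Tendsto (fun R => ∑ r ∈ range R, (-1 : ℝ) ^ r * (lam ^ r / (r.factorial : ℝ))) atTop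
      (𝓝 (Real.exp (-lam))) := by
    have h1 := (NormedSpace.expSeries_div_hasSum_exp (-lam)).tendsto_sum_nat
    rw [← Real.exp_eq_exp_ℝ] at h1
    refine h1.congr (fun R => sum_congr rfl (fun r _ => ?_))
    rw [neg_pow, mul_div_assoc]
  have e1 := (Metric.tendsto_atTop'.1 hs1) (ε / 4) (by positivity)
  have e2 := (Metric.tendsto_atTop'.1 hs2) (ε / 4) (by positivity)
  obtain ⟨R1, hR1⟩ := e1
  obtain ⟨R2, hR2⟩ := e2
  set R := max R1 R2 + 1 with hR
  have f1 := hR1 R (by omega)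
  have f2 := hR2 R (by omega)
  have g1 : Tendsto (fun j => ∑ r ∈ range R, (-1 : ℝ) ^ r * a R r j) atTop
      (𝓝 (∑ r ∈ range R, (-1 : ℝ) ^ r * (lam ^ r / (r.factorial : ℝ)))) := by
    apply tendsto_finsetSum
    intro r hr
    exact (ha R r (mem_range.1 hr).le).const_mul _
  have g2 : Tendsto (fun j => a R R j + e R j) atTop (𝓝 (lam ^ R / (R.factorial : ℝ) + 0)) :=
    (ha R R le_rfl).add (he R)
  rw [add_zero] at g2
  have g1' := (Metric.tendsto_nhds.1 g1) (ε / 4) (by positivity)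
  have g2' := (Metric.tendsto_nhds.1 g2) (ε / 4) (by positivity)
  have hall := (g1'.and g2').and (hp R)
  rw [eventually_atTop] at hall
  obtain ⟨j0, hj0⟩ := hall
  refine ⟨j0, fun j hj => ?_⟩
  obtain ⟨⟨k1, k2⟩, k3⟩ := hj0 j hj.le
  rw [Real.dist_eq] at f1 f2 k1 k2 ⊢
  rw [sub_zero] at f1
  have m1 := abs_lt.1 f1
  have m2 := abs_lt.1 f2
  have m3 := abs_lt.1 k1
  have m4 := abs_lt.1 k2
  have m5 := abs_le.1 k3
  rw [abs_lt]
  constructor <;> linarith [m1.1, m1.2, m2.1, m2.2, m3.1, m3.2, m4.1, m4.2, m5.1, m5.2]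

lemma tendsto_ratio : Tendsto (fun q : ℝ => q / (q - 1)) atTop (𝓝 1) := by
  have h1 : Tendsto (fun q : ℝ => 1 + (q - 1)⁻¹) atTop (𝓝 (1 + 0)) := by
    apply Tendsto.add tendsto_const_nhds
    exact tendsto_inv_atTop_zero.comp (tendsto_atTop_add_const_right _ (-1) tendsto_id)
  rw [add_zero] at h1
  refine h1.congr' ?_
  filter_upwards [eventually_gt_atTop 1] with q hq
  have : q - 1 ≠ 0 := by linarith
  field_simp
  ring

lemma tendsto_U (c : ℝ) (r D : ℕ) (h : 2 * r < D) :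
    Tendsto (fun q : ℝ => q ^ r * (1 / (q - 1) ^ r + c * (q ^ r / q ^ D))) atTop (𝓝 1) := by
  have h1 := tendsto_ratio.pow r
  have h2 : Tendsto (fun q : ℝ => c * (q ^ (2 * r) / q ^ D)) atTop (𝓝 (c * 0)) :=
    (tendsto_pow_div_pow_atTop_zero h).const_mul c
  have h3 := h1.add h2
  rw [one_pow, mul_zero, add_zero] at h3
  refine h3.congr (fun q => ?_)
  rw [div_pow, two_mul, pow_add]
  ring

lemma tendsto_L (c : ℝ) (r D : ℕ) (h : 2 * r < D) :
    Tendsto (fun q : ℝ => q ^ r * (((1 - 1 / q) ^ r - c * (1 + q ^ r / q ^ D) / (q ^ 2 - q)) /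
      (q - 1) ^ r)) atTop (𝓝 1) := by
  have h1 := tendsto_ratio.pow r
  have h2 : Tendsto (fun q : ℝ => (1 - 1 / q) ^ r) atTop (𝓝 ((1 - 0) ^ r)) := by
    apply Tendsto.pow
    apply Tendsto.sub tendsto_const_nhds
    exact tendsto_inv_atTop_zero.congr (fun q => (one_div q).symm)
  have h3 : Tendsto (fun q : ℝ => c * (1 + q ^ r / q ^ D)) atTop (𝓝 (c * (1 + 0))) := by
    apply Tendsto.const_mul
    apply Tendsto.add tendsto_const_nhds
    exact tendsto_pow_div_pow_atTop_zero (by omega)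
  have h4 : Tendsto (fun q : ℝ => q ^ 2 - q) atTop atTop := by
    have : Tendsto (fun q : ℝ => q * (q + (-1))) atTop atTop :=
      tendsto_id.atTop_mul_atTop₀ (tendsto_atTop_add_const_right _ _ tendsto_id)
    refine this.congr (fun q => by ring)
  have h5 : Tendsto (fun q : ℝ => c * (1 + q ^ r / q ^ D) / (q ^ 2 - q)) atTop (𝓝 0) :=
    h3.div_atTop h4
  have h6 := h1.mul (h2.sub h5)
  simp only [one_pow, sub_zero, mul_one] at h6
  refine h6.congr (fun q => ?_)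
  rw [div_pow]
  ring

/-- The constant in the bound for families with a near extra set. -/
noncomputable def Cr (r : ℕ) : ℝ := 2 ^ r * r ^ 2 + 2 ^ (r + 1) + r * 2 ^ r + r

lemma Cr_nonneg (r : ℕ) : 0 ≤ Cr r := by unfold Cr; positivity

lemma near_simplify (q : ℝ) (hq : 2 ≤ q) (r E : ℕ) (hE : 2 * r + 1 ≤ E) :
    (2 ^ r * r ^ 2 : ℝ) * (q ^ r / q ^ (2 * E)) + (1 / ((q - 1 : ℝ) ^ (r + 1)) +
      (r * (1 / ((q - 1 : ℝ) ^ r * q)) + r * (q ^ r / q ^ E))) ≤ Cr r / q ^ (r + 1) := by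
  have hq0 : (0 : ℝ) < q := by linarith
  have hq1 : (1 : ℝ) ≤ q := by linarith
  have hq2 : q / 2 ≤ q - 1 := by linarith
  have hq3 : (0 : ℝ) < q - 1 := by linarith
  have a1 : q ^ r / q ^ (2 * E) ≤ 1 / q ^ (r + 1) := by
    rw [div_le_div_iff₀ (by positivity) (by positivity), ← pow_add, one_mul]
    exact pow_le_pow_right₀ hq1 (by omega)
  have a2 : q ^ r / q ^ E ≤ 1 / q ^ (r + 1) := by
    rw [div_le_div_iff₀ (by positivity) (by positivity), ← pow_add, one_mul]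
    exact pow_le_pow_right₀ hq1 (by omega)
  have a3 : 1 / ((q - 1 : ℝ) ^ (r + 1)) ≤ 2 ^ (r + 1) * (1 / q ^ (r + 1)) := by
    rw [mul_one_div, div_le_div_iff₀ (by positivity) (by positivity), one_mul, ← mul_pow]
    apply pow_le_pow_left₀ hq0.le
    linarith
  have a4 : 1 / ((q - 1 : ℝ) ^ r * q) ≤ 2 ^ r * (1 / q ^ (r + 1)) := by
    rw [mul_one_div, div_le_div_iff₀ (by positivity) (by positivity), one_mul, pow_succ,
      ← mul_assoc, ← mul_pow]
    apply mul_le_mul_of_nonneg_right _ hq0.le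
    apply pow_le_pow_left₀ hq0.le
    linarith
  have b1 := mul_le_mul_of_nonneg_left a1 (show (0 : ℝ) ≤ 2 ^ r * r ^ 2 by positivity)
  have b2 := mul_le_mul_of_nonneg_left a2 (show (0 : ℝ) ≤ r by positivity)
  have b4 := mul_le_mul_of_nonneg_left a4 (show (0 : ℝ) ≤ r by positivity)
  have hc : Cr r / q ^ (r + 1) = (2 ^ r * r ^ 2 : ℝ) * (1 / q ^ (r + 1)) +
      (2 ^ (r + 1) * (1 / q ^ (r + 1)) + (r * (2 ^ r * (1 / q ^ (r + 1))) +
        r * (1 / q ^ (r + 1)))) := by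
    unfold Cr; ring
  rw [hc]
  linarith

end Pool.Agent.Lib.MP_498a73_pr
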