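import Pool.Agent.Lib.MP_498a73_pr.Kernel

set_option autoImplicit false

namespace Pool.Agent.Lib.MP_498a73_pr

open Finset

/-- Bonferroni inequality. -/
lemma bonf (x R : ℕ) :
    |(if x = 0 then (1 : ℝ) else 0) - ∑ r ∈ range R, (-1 : ℝ) ^ r * (x.choose r : ℝ)| ≤
      (x.choose R : ℝ) := by
  rcases Nat.eq_zero_or_pos x with hx | hx
  · subst hx
    rcases Nat.eq_zero_or_pos R with hR | hR
    · subst hR; simp
    · have h1 : ∑ r ∈ range R, (-1 : ℝ) ^ r * ((0 : ℕ).choose r : ℝ) = 1 := by
        rw [Finset.sum_eq_single 0]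
        · simp
        · intro b _ hb
          rw [Nat.choose_eq_zero_of_lt (Nat.pos_of_ne_zero hb)]; simp
        · intro h; exact absurd (mem_range.2 hR) h
      rw [h1]; simp
  · rw [if_neg hx.ne']
    rcases Nat.eq_zero_or_pos R with hR | hR
    · subst hR; simp
    · obtain ⟨m, rfl⟩ : ∃ m, R = m + 1 := ⟨R - 1, by omega⟩
      obtain ⟨y, rfl⟩ : ∃ y, x = y + 1 := ⟨x - 1, by omega⟩
      have h1 := Int.alternating_sum_range_choose_eq_choose (n := y) (m := m)
      have h2 : ∑ r ∈ range (m + 1), (-1 : ℝ) ^ r * ((y + 1).choose r : ℝ) =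
          (-1) ^ m * (y.choose m : ℝ) := by exact_mod_cast h1
      rw [h2, zero_sub, abs_neg, abs_mul, abs_pow, abs_neg, abs_one, one_pow, one_mul,
        Nat.abs_cast, Nat.choose_succ_succ]
      push_cast
      have : (0 : ℝ) ≤ (y.choose (m + 1) : ℝ) := by positivity
      linarith

section Sieve

variable {Ω α : Type} [Fintype Ω] [Fintype α] (E : α → Ω → Prop) (near : α → α → Prop)

open Classical in
/-- The events that hold in isolation. -/
noncomputable def Iso (ω : Ω) : Finset α :=
  univ.filter (fun S => E S ω ∧ ∀ T, near S T → ¬ E T ω)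

open Classical in
/-- The binomial moments of the number of isolated events. -/
noncomputable def mom (r : ℕ) : ℝ :=
  ∑ s ∈ powersetCard r (univ : Finset α), prob (fun ω => ∀ S ∈ s, E S ω ∧ ∀ T, near S T → ¬ E T ω)

lemma mom_eq (r : ℕ) :
    mom E near r = (∑ ω, (((Iso E near ω).card.choose r : ℕ) : ℝ)) / Fintype.card Ω := by
  classical
  unfold mom
  simp_rw [prob_eq]
  rw [← sum_div]
  congr 1
  rw [← Nat.cast_sum, ← Nat.cast_sum]
  congr 1
  simp_rw [card_filter]
  rw [sum_comm]
  apply sum_congr rfl
  intro ω _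
  rw [← card_filter, ← card_powersetCard]
  congr 1
  ext s
  simp only [mem_filter, mem_powersetCard, subset_univ, true_and, Iso]
  constructor
  · rintro ⟨h1, h2⟩
    refine ⟨?_, h1⟩
    intro S hS
    simp only [mem_filter, mem_univ, true_and]
    exact h2 S hS
  · rintro ⟨h1, h2⟩
    refine ⟨h2, ?_⟩
    intro S hS
    have := h1 hS
    simp only [mem_filter, mem_univ, true_and] at this
    exact this

lemma prob_eq_sum (p : Ω → Prop) [DecidablePred p] :
    prob p = (∑ ω, (if p ω then (1 : ℝ) else 0)) / Fintype.card Ω := by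
  rw [prob_eq, sum_boole]

lemma iso_bound (R : ℕ) [Nonempty Ω] :
    |prob (fun ω => Iso E near ω = ∅) - ∑ r ∈ range R, (-1 : ℝ) ^ r * mom E near r| ≤
      mom E near R := by
  classical
  have hc : (0 : ℝ) < (Fintype.card Ω : ℝ) := by exact_mod_cast Fintype.card_pos
  simp_rw [mom_eq]
  rw [prob_eq_sum]
  have h1 : (∑ ω, (if Iso E near ω = ∅ then (1 : ℝ) else 0)) / Fintype.card Ω -
      ∑ r ∈ range R, (-1 : ℝ) ^ r * ((∑ ω, (((Iso E near ω).card.choose r : ℕ) : ℝ)) /
        Fintype.card Ω) =
      (∑ ω, ((if (Iso E near ω).card = 0 then (1 : ℝ) else 0) -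
        ∑ r ∈ range R, (-1 : ℝ) ^ r * (((Iso E near ω).card.choose r : ℕ) : ℝ))) /
          Fintype.card Ω := by
    rw [sum_sub_distrib, sub_div]
    congr 1
    · simp_rw [card_eq_zero]
    · rw [sum_comm, sum_div]
      apply sum_congr rfl
      intro r _
      rw [← mul_sum, mul_div_assoc]
  rw [h1, abs_div, abs_of_pos hc]
  apply div_le_div_of_nonneg_right _ hc.le
  refine (abs_sum_le_sum_abs _ _).trans ?_
  apply sum_le_sum
  intro ω _
  exact bonf _ R

/-- Main sieve bound. -/
theorem sieve_bound [Nonempty Ω] (b : ℕ) (hb : ∀ S, cnt (near S) ≤ b) (t : ℝ) (ht0 : 0 ≤ t)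
    (ht : ∀ S T, near S T → prob (fun ω => E S ω ∧ E T ω) ≤ t) (R : ℕ) :
    |prob (fun ω => ∀ S, ¬ E S ω) - ∑ r ∈ range R, (-1 : ℝ) ^ r * mom E near r| ≤
      mom E near R + Fintype.card α * b * t := by
  classical
  have h1 := iso_bound E near R
  have h2 : |prob (fun ω => ∀ S, ¬ E S ω) - prob (fun ω => Iso E near ω = ∅)| ≤
      Fintype.card α * b * t := by
    have h3 : prob (fun ω => ∀ S, ¬ E S ω) ≤ prob (fun ω => Iso E near ω = ∅) := by
      apply prob_mono
      intro ω h
      unfold Iso
      rw [filter_eq_empty_iff]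
      rintro S _ ⟨h1, _⟩
      exact h S h1
    have h4 : prob (fun ω => Iso E near ω = ∅) ≤ prob (fun ω => ∀ S, ¬ E S ω) +
        prob (fun ω => ∃ S, ∃ T, near S T ∧ E S ω ∧ E T ω) := by
      refine le_trans (prob_mono ?_) (prob_or_le _ _)
      intro ω h
      by_cases hE : ∀ S, ¬ E S ω
      · exact Or.inl hE
      · right
        push Not at hE
        obtain ⟨S, hS⟩ := hE
        unfold Iso at h
        rw [filter_eq_empty_iff] at h
        have := h (mem_univ S)
        push Not at this
        obtain ⟨T, hT1, hT2⟩ := this hS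
        exact ⟨S, T, hT1, hS, hT2⟩
    have h5 : prob (fun ω => ∃ S, ∃ T, near S T ∧ E S ω ∧ E T ω) ≤
        Fintype.card α * (b * t) := by
      apply prob_exists_le_mul
      intro S
      refine (prob_exists_le _).trans ?_
      have h6 : ∀ T, prob (fun ω => near S T ∧ E S ω ∧ E T ω) ≤ if near S T then t else 0 := by
        intro T
        by_cases hn : near S T
        · rw [if_pos hn]
          exact (prob_mono (fun ω h => h.2)).trans (ht S T hn)
        · rw [if_neg hn, prob_eq, filter_false_of_mem]
          · simp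
          · rintro ω _ ⟨h, _⟩
            exact hn h
      refine (sum_le_sum (fun T _ => h6 T)).trans ?_
      rw [← sum_filter, sum_const, nsmul_eq_mul, ← cnt_eq]
      exact mul_le_mul_of_nonneg_right (by exact_mod_cast hb S) ht0
    rw [abs_le]
    constructor <;> linarith
  calc |prob (fun ω => ∀ S, ¬ E S ω) - ∑ r ∈ range R, (-1 : ℝ) ^ r * mom E near r|
      ≤ |prob (fun ω => ∀ S, ¬ E S ω) - prob (fun ω => Iso E near ω = ∅)| +
        |prob (fun ω => Iso E near ω = ∅) - ∑ r ∈ range R, (-1 : ℝ) ^ r * mom E near r| :=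
        abs_sub_le _ _ _
    _ ≤ _ := by linarith

/-- A family without near pairs. -/
def FarFam (s : Finset α) : Prop := ∀ S ∈ s, ∀ T ∈ s, ¬ near S T

lemma mom_le (r : ℕ) (u : ℝ) (hu0 : 0 ≤ u)
    (hu : ∀ s : Finset α, s.card = r → FarFam near s → prob (fun ω => ∀ S ∈ s, E S ω) ≤ u) :
    mom E near r ≤ (Fintype.card α).choose r * u := by
  classical
  unfold mom
  refine (sum_le_card_nsmul _ _ u ?_).trans (le_of_eq ?_)
  · intro s hs
    rw [mem_powersetCard] at hs
    by_cases hf : FarFam near s
    · exact (prob_mono (fun ω h S hS => (h S hS).1)).trans (hu s hs.2 hf)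
    · rw [prob_eq, filter_false_of_mem]
      · simpa using hu0
      · intro ω _ h
        apply hf
        intro S hS T hT hn
        exact (h S hS).2 T hn (h T hT).1
  · rw [card_powersetCard, card_univ, nsmul_eq_mul]

lemma not_far_card (hirr : ∀ S, ¬ near S S) (b : ℕ) (hb : ∀ S, cnt (near S) ≤ b) (r : ℕ)
    [DecidablePred (FarFam near)] :
    ((powersetCard r (univ : Finset α)).filter (fun s => ¬ FarFam near s)).card ≤
      b * (Fintype.card α) ^ (r - 1) := by
  classical
  by_cases hr : r < 2
  · rw [filter_false_of_mem]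
    · simp
    · intro s hs hn
      apply hn
      rw [mem_powersetCard] at hs
      have h1 : s.card ≤ 1 := by omega
      intro S hS T hT
      have : S = T := card_le_one.1 h1 S hS T hT
      rw [this]
      exact hirr T
  · push Not at hr
    have h1 : ((powersetCard r (univ : Finset α)).filter (fun s => ¬ FarFam near s)) ⊆
        (univ : Finset α).biUnion (fun S => (univ.filter (near S)).biUnion (fun T =>
          (powersetCard (r - 2) (univ : Finset α)).image (fun s => insert S (insert T s)))) := by
      intro s hs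
      rw [mem_filter, mem_powersetCard] at hs
      obtain ⟨⟨_, hs1⟩, hs2⟩ := hs
      unfold FarFam at hs2
      push Not at hs2
      obtain ⟨S, hS, T, hT, hn⟩ := hs2
      have hne : S ≠ T := by rintro rfl; exact hirr _ hn
      simp only [mem_biUnion, mem_univ, true_and, mem_filter, mem_image, mem_powersetCard,
        subset_univ]
      refine ⟨S, T, hn, (s.erase S).erase T, ?_, ?_⟩
      · rw [card_erase_of_mem, card_erase_of_mem hS, hs1]
        · omega
        · rw [mem_erase]; exact ⟨hne.symm, hT⟩
      · rw [insert_erase, insert_erase hS]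
        rw [mem_erase]; exact ⟨hne.symm, hT⟩
    refine (card_le_card h1).trans ?_
    refine card_biUnion_le.trans ?_
    have h2 : ∀ S : α, ((univ.filter (near S)).biUnion (fun T =>
          (powersetCard (r - 2) (univ : Finset α)).image (fun s => insert S (insert T s)))).card ≤
          b * (Fintype.card α) ^ (r - 2) := by
      intro S
      refine card_biUnion_le.trans ?_
      refine (sum_le_card_nsmul _ _ ((Fintype.card α) ^ (r - 2)) ?_).trans ?_
      · intro T _
        refine card_image_le.trans ?_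
        rw [card_powersetCard, card_univ]
        exact Nat.choose_le_pow _ _
      · rw [smul_eq_mul, ← cnt_eq]
        exact Nat.mul_le_mul_right _ (hb S)
    refine (sum_le_sum (fun S _ => h2 S)).trans (le_of_eq ?_)
    rw [sum_const, card_univ, smul_eq_mul]
    obtain ⟨m, rfl⟩ : ∃ m, r = m + 2 := ⟨r - 2, by omega⟩
    have h3 : m + 2 - 2 = m := by omega
    have h4 : m + 2 - 1 = m + 1 := by omega
    rw [h3, h4, pow_succ]
    ring

lemma le_mom (hirr : ∀ S, ¬ near S S) (b : ℕ) (hb : ∀ S, cnt (near S) ≤ b)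
    (r : ℕ) (l t : ℝ) (hl0 : 0 ≤ l) (ht0 : 0 ≤ t)
    (hl : ∀ s : Finset α, s.card = r → FarFam near s → l ≤ prob (fun ω => ∀ S ∈ s, E S ω))
    (ht : ∀ s : Finset α, s.card = r → FarFam near s → ∀ T, T ∉ s → 
      prob (fun ω => (∀ S ∈ s, E S ω) ∧ E T ω) ≤ t) :
    ((Fintype.card α).choose r - b * (Fintype.card α : ℝ) ^ (r - 1)) * l -
      (Fintype.card α).choose r * (r * b * t) ≤ mom E near r := by
  classical
  unfold mom
  -- lower bound for each far family
  have h1 : ∀ s : Finset α, s.card = r → FarFam near s →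
      l - r * b * t ≤ prob (fun ω => ∀ S ∈ s, E S ω ∧ ∀ T, near S T → ¬ E T ω) := by
    intro s hs hf
    have h2 : prob (fun ω => ∀ S ∈ s, E S ω) ≤
        prob (fun ω => ∀ S ∈ s, E S ω ∧ ∀ T, near S T → ¬ E T ω) +
        prob (fun ω => ∃ S, ∃ T, S ∈ s ∧ near S T ∧ (∀ S ∈ s, E S ω) ∧ E T ω) := by
      refine le_trans (prob_mono ?_) (prob_or_le _ _)
      intro ω h
      by_cases hE : ∀ S ∈ s, E S ω ∧ ∀ T, near S T → ¬ E T ω
      · exact Or.inl hE
      · right
        push Not at hE
        obtain ⟨S, hS, hS2⟩ := hE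
        obtain ⟨T, hT1, hT2⟩ := hS2 (h S hS)
        exact ⟨S, T, hS, hT1, h, hT2⟩
    have h3 : prob (fun ω => ∃ S, ∃ T, S ∈ s ∧ near S T ∧ (∀ S ∈ s, E S ω) ∧ E T ω) ≤
        r * (b * t) := by
      refine (prob_exists_le _).trans ?_
      have h4 : ∀ S, prob (fun ω => ∃ T, S ∈ s ∧ near S T ∧ (∀ S ∈ s, E S ω) ∧ E T ω) ≤
          if S ∈ s then b * t else 0 := by
        intro S
        by_cases hS : S ∈ s
        · rw [if_pos hS]
          refine (prob_exists_le _).trans ?_
          have h6 : ∀ T, prob (fun ω => S ∈ s ∧ near S T ∧ (∀ S ∈ s, E S ω) ∧ E T ω) ≤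
              if near S T then t else 0 := by
            intro T
            by_cases hn : near S T
            · rw [if_pos hn]
              exact (prob_mono (fun ω h => h.2.2)).trans (ht s hs hf T (fun hT => hf S hS T hT hn))
            · rw [if_neg hn, prob_eq, filter_false_of_mem]
              · simp
              · rintro ω _ ⟨_, h, _⟩
                exact hn h
          refine (sum_le_sum (fun T _ => h6 T)).trans ?_
          rw [← sum_filter, sum_const, nsmul_eq_mul, ← cnt_eq]
          exact mul_le_mul_of_nonneg_right (by exact_mod_cast hb S) ht0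
        · rw [if_neg hS, prob_eq, filter_false_of_mem]
          · simp
          · rintro ω _ ⟨T, h, _⟩
            exact hS h
      refine (sum_le_sum (fun S _ => h4 S)).trans (le_of_eq ?_)
      rw [← sum_filter, sum_const, nsmul_eq_mul, filter_mem_eq_inter, univ_inter, hs]
    have h5 := hl s hs hf
    linarith
  have h2 : ((powersetCard r (univ : Finset α)).filter (FarFam near)).card • (l - r * b * t) ≤
      ∑ s ∈ powersetCard r (univ : Finset α),
        prob (fun ω => ∀ S ∈ s, E S ω ∧ ∀ T, near S T → ¬ E T ω) := by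
    refine (card_nsmul_le_sum _ _ _ ?_).trans (sum_le_sum_of_subset_of_nonneg
      (filter_subset _ _) (fun _ _ _ => prob_nonneg _))
    intro s hs
    rw [mem_filter, mem_powersetCard] at hs
    exact h1 s hs.1.2 hs.2
  refine le_trans ?_ h2
  rw [nsmul_eq_mul]
  have h3 := not_far_card near hirr b hb r
  have h4 := card_filter_add_card_filter_not (s := powersetCard r (univ : Finset α)) (FarFam near)
  rw [card_powersetCard, card_univ] at h4
  set x := ((powersetCard r (univ : Finset α)).filter (FarFam near)).card with hx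
  set y := ((powersetCard r (univ : Finset α)).filter (fun s => ¬ FarFam near s)).card with hy
  have h3' : (y : ℝ) ≤ b * (Fintype.card α : ℝ) ^ (r - 1) := by exact_mod_cast h3
  have h4' : (x : ℝ) + y = (Fintype.card α).choose r := by exact_mod_cast h4
  have h5 : (x : ℝ) ≤ (Fintype.card α).choose r := by
    have : (0 : ℝ) ≤ y := by positivity
    linarith
  have h6 : ((Fintype.card α).choose r - b * (Fintype.card α : ℝ) ^ (r - 1)) * l ≤ x * l :=
    mul_le_mul_of_nonneg_right (by linarith) hl0
  have h7 : (x : ℝ) * (r * b * t) ≤ (Fintype.card α).choose r * (r * b * t) :=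
    mul_le_mul_of_nonneg_right h5 (by positivity)
  rw [mul_sub]
  linarith

end Sieve

end Pool.Agent.Lib.MP_498a73_pr
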