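import Pool.Agent.Lib.MP_498a73_pr.Lower
import Pool.Agent.Lib.MP_498a73_pr.Sieve
import Pool.Agent.Lib.MP_498a73_pr.Analysis

set_option autoImplicit false

namespace Pool.Agent.Lib.MP_498a73_pr

open Finset Filter Topology

/-- The `k`-subsets of `Fin n`. -/
abbrev KSet (n k : ℕ) : Type := {S : Finset (Fin n) // S.card = k}

/-- Two distinct `k`-sets whose difference has fewer than `D` elements. -/
def nearRel (n k D : ℕ) (S T : KSet n k) : Prop := S ≠ T ∧ (S.1 \ T.1).card < D

lemma card_kset (n k : ℕ) : Fintype.card (KSet n k) = n.choose k := by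
  rw [Fintype.card_finset_len, Fintype.card_fin]

lemma small_card (n D : ℕ) (hn : 1 ≤ n) :
    ((univ : Finset (Finset (Fin n))).filter (fun A => A.card < D)).card ≤ D * n ^ D := by
  classical
  have h1 : ((univ : Finset (Finset (Fin n))).filter (fun A => A.card < D)) ⊆
      (range D).biUnion (fun i => powersetCard i (univ : Finset (Fin n))) := by
    intro A hA
    simp only [mem_filter, mem_univ, true_and] at hA
    simp only [mem_biUnion, mem_range, mem_powersetCard, subset_univ, true_and]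
    exact ⟨A.card, hA, rfl⟩
  refine (card_le_card h1).trans (card_biUnion_le.trans ?_)
  refine (sum_le_card_nsmul _ _ (n ^ D) ?_).trans (le_of_eq ?_)
  · intro i hi
    rw [card_powersetCard, card_univ, Fintype.card_fin]
    exact (Nat.choose_le_pow _ _).trans (Nat.pow_le_pow_right hn (mem_range.1 hi).le)
  · rw [card_range, smul_eq_mul]

lemma near_card (n k D : ℕ) (hn : 1 ≤ n) (S : KSet n k) :
    cnt (nearRel n k D S) ≤ (D * n ^ D) ^ 2 := by
  classical
  rw [cnt_eq, sq]
  refine le_trans (card_le_card_of_injOn (t := ((univ : Finset (Finset (Fin n))).filter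
    (fun A => A.card < D)) ×ˢ ((univ : Finset (Finset (Fin n))).filter (fun A => A.card < D)))
    (fun T => (S.1 \ T.1, T.1 \ S.1)) ?_ ?_) ?_
  · intro T hT
    simp only [coe_filter, mem_univ, true_and, Set.mem_ofPred_eq] at hT
    have h2 : (S.1 \ T.1).card = (T.1 \ S.1).card := card_sdiff_comm (by rw [S.2, T.2])
    simp only [coe_product, coe_filter, mem_univ, true_and, Set.mem_prod, Set.mem_ofPred_eq]
    exact ⟨hT.2, h2 ▸ hT.2⟩
  · intro T _ T' _ h
    simp only [Prod.mk.injEq] at h
    apply Subtype.ext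
    ext x
    have h1 : (x ∈ S.1 \ T.1) ↔ (x ∈ S.1 \ T'.1) := Finset.ext_iff.1 h.1 x
    have h2 : (x ∈ T.1 \ S.1) ↔ (x ∈ T'.1 \ S.1) := Finset.ext_iff.1 h.2 x
    rw [Finset.mem_sdiff, Finset.mem_sdiff] at h1 h2
    tauto
  · rw [card_product]
    exact Nat.mul_le_mul (small_card n D hn) (small_card n D hn)

section Inst

variable {F : Type} [Field F] [Fintype F] {n k : ℕ}

/-- The singularity events. -/
def Ev (F : Type) [Field F] (n k : ℕ) (S : KSet n k) (M : Fin n → Fin k → F) : Prop := Sing S.1 M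

lemma far_of_farFam {D : ℕ} (s : Finset (KSet n k)) (hs : FarFam (nearRel n k D) s)
    (i j : s) (hij : i ≠ j) : D ≤ (i.1.1 \ j.1.1).card := by
  by_contra hcon
  push Not at hcon
  exact hs i.1 i.2 j.1 j.2 ⟨fun h => hij (Subtype.ext h), hcon⟩

lemma inst_upper (r D : ℕ) (s : Finset (KSet n k)) (hsr : s.card = r)
    (hs : FarFam (nearRel n k D) s) :
    prob (fun M : Fin n → Fin k → F => ∀ S ∈ s, Ev F n k S M) ≤
      1 / ((Fintype.card F - 1 : ℝ) ^ r) +
      (2 ^ r * r ^ 2 : ℝ) * ((Fintype.card F : ℝ) ^ r / (Fintype.card F : ℝ) ^ D) := by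
  have h := prob_far_le (F := F) (k := k) (ι := s) (fun i => i.1.1) (fun i => i.1.2) D
    (far_of_farFam s hs)
  have hc : Fintype.card s = r := by simp [hsr]
  rw [hc] at h
  refine (prob_mono ?_).trans h
  intro M hM i
  exact hM i.1 i.2

lemma inst_lower (r D : ℕ) (hr : r ≤ k) (s : Finset (KSet n k)) (hsr : s.card = r)
    (hs : FarFam (nearRel n k D) s) :
    ((1 - 1 / (Fintype.card F : ℝ)) ^ r -
      r * (1 + (Fintype.card F : ℝ) ^ r / (Fintype.card F : ℝ) ^ D) /
        ((Fintype.card F : ℝ) ^ 2 - Fintype.card F)) / (Fintype.card F - 1 : ℝ) ^ r ≤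
    prob (fun M : Fin n → Fin k → F => ∀ S ∈ s, Ev F n k S M) := by
  have hc : Fintype.card s = r := by simp [hsr]
  have h := prob_far_ge (F := F) (k := k) (ι := s) (fun i => i.1.1) (fun i => i.1.2) D
    (far_of_farFam s hs) (by rw [hc]; exact hr)
  rw [hc] at h
  refine h.trans (prob_mono ?_)
  intro M hM S hS
  exact hM ⟨S, hS⟩

lemma two_le_card_real (F : Type) [Field F] [Fintype F] : (2 : ℝ) ≤ (Fintype.card F : ℝ) := by
  exact_mod_cast Fintype.one_lt_card

lemma inst_near (r E : ℕ) (hE : 2 * r + 1 ≤ E) (s : Finset (KSet n k)) (hsr : s.card = r)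
    (hs : FarFam (nearRel n k (2 * E)) s) (T : KSet n k) (hT : T ∉ s) :
    prob (fun M : Fin n → Fin k → F => (∀ S ∈ s, Ev F n k S M) ∧ Ev F n k T M) ≤
      Cr r / (Fintype.card F : ℝ) ^ (r + 1) := by
  have hc : Fintype.card s = r := by simp [hsr]
  have h := prob_near_le (F := F) (k := k) (ι := s) (fun i => i.1.1) T.1 (fun i => i.1.2) T.2
    (by
      intro i h
      apply hT
      have : T = i.1 := Subtype.ext h
      rw [this]
      exact i.2) E (far_of_farFam s hs)
  rw [hc] at h
  refine (prob_mono ?_).trans (h.trans (near_simplify _ (two_le_card_real F) r E hE))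
  rintro M ⟨hM, hM2⟩
  exact ⟨fun i => hM i.1 i.2, hM2⟩

lemma inst_near_pair (E : ℕ) (hE : 3 ≤ E) (S T : KSet n k) (hST : S ≠ T) :
    prob (fun M : Fin n → Fin k → F => Ev F n k S M ∧ Ev F n k T M) ≤
      Cr 1 / (Fintype.card F : ℝ) ^ 2 := by
  have h := inst_near (F := F) 1 E hE {S} (card_singleton S) (by
    intro A hA B hB h
    rw [mem_singleton] at hA hB
    exact h.1 (hA.trans hB.symm)) T (by
      rw [mem_singleton]; exact fun h => hST h.symm)
  refine (prob_mono ?_).trans h
  rintro M ⟨h1, h2⟩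
  refine ⟨?_, h2⟩
  intro A hA
  rw [mem_singleton] at hA
  rw [hA]; exact h1

lemma mom_zero [Nonempty (Fin n → Fin k → F)] (near : KSet n k → KSet n k → Prop) :
    mom (Ev F n k) near 0 = 1 := by
  classical
  rw [mom_eq]
  simp only [Nat.choose_zero_right, Nat.cast_one, sum_const, card_univ, nsmul_eq_mul, mul_one]
  have : (Fintype.card (Fin n → Fin k → F) : ℝ) ≠ 0 := by
    exact_mod_cast Fintype.card_ne_zero
  exact div_self this

end Inst

/-- The Poisson limit when `k → ∞` and `n` is subpolynomial in `q`. -/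
theorem central (n k : ℕ → ℕ) (F : ℕ → Type) [∀ j, Field (F j)] [∀ j, Fintype (F j)]
    (lam : ℝ) (hlam : 0 < lam)
    (hn : Tendsto n atTop atTop)
    (hq : Tendsto (fun j => Fintype.card (F j)) atTop atTop)
    (hN : Tendsto (fun j => ((n j).choose (k j) : ℝ) / Fintype.card (F j)) atTop (𝓝 lam))
    (hk : Tendsto k atTop atTop)
    (hpoly : ∀ C : ℕ, Tendsto (fun j => ((n j : ℝ) ^ C / Fintype.card (F j))) atTop (𝓝 0)) :
    Tendsto (fun j => prob (fun M : Fin (n j) → Fin (k j) → F j =>
      ∀ S : KSet (n j) (k j), ¬ Ev (F j) (n j) (k j) S M)) atTop (𝓝 (Real.exp (-lam))) := by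
  classical
  have hqR : Tendsto (fun j => (Fintype.card (F j) : ℝ)) atTop atTop :=
    tendsto_natCast_atTop_atTop.comp hq
  have hNR : Tendsto (fun j => ((n j).choose (k j) : ℝ)) atTop atTop := by
    have h1 : Tendsto (fun j => ((n j).choose (k j) : ℝ) / Fintype.card (F j) *
        (Fintype.card (F j) : ℝ)) atTop atTop := hN.pos_mul_atTop hlam hqR
    refine h1.congr (fun j => ?_)
    have : (Fintype.card (F j) : ℝ) ≠ 0 := by exact_mod_cast Fintype.card_ne_zero
    field_simp
  have hNN : Tendsto (fun j => (n j).choose (k j)) atTop atTop :=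
    tendsto_natCast_atTop_iff.1 hNR
  have hchoose := tendsto_choose_div (fun j => (n j).choose (k j))
    (fun j => (Fintype.card (F j) : ℝ)) lam hNN hN
  -- the bound on near neighbours
  have hb : ∀ D : ℕ, Tendsto (fun j => (((D * (n j) ^ D) ^ 2 : ℕ) : ℝ) / Fintype.card (F j))
      atTop (𝓝 0) := by
    intro D
    have h1 := (hpoly (D * 2)).const_mul ((D : ℝ) ^ 2)
    rw [mul_zero] at h1
    refine h1.congr (fun j => ?_)
    push_cast
    rw [mul_pow, ← pow_mul]
    ring
  refine tendsto_of_bonferroni _ (fun R r j => mom (Ev (F j) (n j) (k j))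
    (nearRel (n j) (k j) (2 * (2 * R + 2))) r)
    (fun R j => ((n j).choose (k j) : ℝ) *
      ((((2 * (2 * R + 2)) * (n j) ^ (2 * (2 * R + 2))) ^ 2 : ℕ) : ℝ) *
        (Cr 1 / (Fintype.card (F j) : ℝ) ^ 2)) lam ?_ ?_ ?_
  · intro R r hr
    rcases Nat.eq_zero_or_pos r with hr0 | hr0
    · subst hr0
      simp only [mom_zero, pow_zero, Nat.factorial_zero, Nat.cast_one, div_one]
      exact tendsto_const_nhds
    · have hD : 2 * r < 2 * (2 * R + 2) := by omega
      set D := 2 * (2 * R + 2) with hDdef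
      -- upper bound
      have hU : Tendsto (fun j => ((n j).choose (k j)).choose r *
          (1 / ((Fintype.card (F j) - 1 : ℝ) ^ r) + (2 ^ r * r ^ 2 : ℝ) *
            ((Fintype.card (F j) : ℝ) ^ r / (Fintype.card (F j) : ℝ) ^ D))) atTop
          (𝓝 (lam ^ r / (r.factorial : ℝ))) := by
        have h1 := (hchoose r).mul ((tendsto_U (2 ^ r * r ^ 2 : ℝ) r D hD).comp hqR)
        rw [mul_one] at h1
        refine h1.congr (fun j => ?_)
        have : (Fintype.card (F j) : ℝ) ≠ 0 := by exact_mod_cast Fintype.card_ne_zero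
        simp only [Function.comp_apply]
        rw [div_mul_eq_mul_div, mul_left_comm, mul_div_assoc, mul_comm ((Fintype.card (F j) : ℝ) ^ r),
          div_mul_cancel₀ _ (pow_ne_zero r this)]
      -- lower bound
      have hLpos : Tendsto (fun j => (Fintype.card (F j) : ℝ) ^ r *
          (((1 - 1 / (Fintype.card (F j) : ℝ)) ^ r -
          r * (1 + (Fintype.card (F j) : ℝ) ^ r / (Fintype.card (F j) : ℝ) ^ D) /
          ((Fintype.card (F j) : ℝ) ^ 2 - Fintype.card (F j))) /
            (Fintype.card (F j) - 1 : ℝ) ^ r)) atTop (𝓝 1) :=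
        (tendsto_L (r : ℝ) r D hD).comp hqR
      have hL : Tendsto (fun j => (((n j).choose (k j)).choose r -
          (((D * (n j) ^ D) ^ 2 : ℕ) : ℝ) * ((n j).choose (k j) : ℝ) ^ (r - 1)) *
          (((1 - 1 / (Fintype.card (F j) : ℝ)) ^ r -
          r * (1 + (Fintype.card (F j) : ℝ) ^ r / (Fintype.card (F j) : ℝ) ^ D) /
          ((Fintype.card (F j) : ℝ) ^ 2 - Fintype.card (F j))) /
            (Fintype.card (F j) - 1 : ℝ) ^ r) -
          ((n j).choose (k j)).choose r * (r * (((D * (n j) ^ D) ^ 2 : ℕ) : ℝ) *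
            (Cr r / (Fintype.card (F j) : ℝ) ^ (r + 1)))) atTop
          (𝓝 (lam ^ r / (r.factorial : ℝ))) := by
        have h1 := (((hchoose r).sub ((hb D).mul (hN.pow (r - 1)))).mul hLpos).sub
          ((hchoose r).mul (((hb D).const_mul (r : ℝ)).mul_const (Cr r)))
        simp only [zero_mul, sub_zero, mul_one, mul_zero] at h1
        refine h1.congr (fun j => ?_)
        have hq0 : (Fintype.card (F j) : ℝ) ≠ 0 := by exact_mod_cast Fintype.card_ne_zero
        obtain ⟨m, rfl⟩ : ∃ m, r = m + 1 := ⟨r - 1, by omega⟩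
        rw [Nat.add_sub_cancel]
        set q := (Fintype.card (F j) : ℝ) with hqd
        set X := (((1 - 1 / q) ^ (m + 1) - ((m + 1 : ℕ) : ℝ) * (1 + q ^ (m + 1) / q ^ D) /
          (q ^ 2 - q)) / (q - 1) ^ (m + 1)) with hX
        have e1 : ((((n j).choose (k j)).choose (m + 1) : ℝ) / q ^ (m + 1) -
            (((D * n j ^ D) ^ 2 : ℕ) : ℝ) / q * (((n j).choose (k j) : ℝ) / q) ^ m) *
            (q ^ (m + 1) * X) = ((((n j).choose (k j)).choose (m + 1) : ℝ) -
            (((D * n j ^ D) ^ 2 : ℕ) : ℝ) * ((n j).choose (k j) : ℝ) ^ m) * X := by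
          rw [div_pow]
          field_simp
          ring
        have e2 : (((n j).choose (k j)).choose (m + 1) : ℝ) / q ^ (m + 1) *
            (((m + 1 : ℕ) : ℝ) * ((((D * n j ^ D) ^ 2 : ℕ) : ℝ) / q) * Cr (m + 1)) =
            (((n j).choose (k j)).choose (m + 1) : ℝ) * (((m + 1 : ℕ) : ℝ) *
            (((D * n j ^ D) ^ 2 : ℕ) : ℝ) * (Cr (m + 1) / q ^ (m + 1 + 1))) := by
          rw [pow_succ q (m + 1)]
          field_simp
        rw [e1, e2]
      refine tendsto_of_tendsto_of_tendsto_of_le_of_le' hL hU ?_ ?_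
      · have hev1 : ∀ᶠ j in atTop, (0 : ℝ) < (Fintype.card (F j) : ℝ) ^ r *
          (((1 - 1 / (Fintype.card (F j) : ℝ)) ^ r -
          r * (1 + (Fintype.card (F j) : ℝ) ^ r / (Fintype.card (F j) : ℝ) ^ D) /
          ((Fintype.card (F j) : ℝ) ^ 2 - Fintype.card (F j))) /
            (Fintype.card (F j) - 1 : ℝ) ^ r) :=
          hLpos.eventually (lt_mem_nhds one_pos)
        filter_upwards [hev1, hk.eventually_ge_atTop r, hn.eventually_ge_atTop 1]
          with j h1 h2 h3
        have hq0 : (0 : ℝ) < (Fintype.card (F j) : ℝ) := by exact_mod_cast Fintype.card_pos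
        have h4 := pos_of_mul_pos_right h1 (pow_pos hq0 r).le
        have h5 := le_mom (Ev (F j) (n j) (k j)) (nearRel (n j) (k j) D)
          (fun S h => h.1 rfl) ((D * (n j) ^ D) ^ 2) (near_card (n j) (k j) D h3) r
          _ _ h4.le (div_nonneg (Cr_nonneg r) (pow_nonneg hq0.le (r + 1)))
          (fun s hs hf => inst_lower r D h2 s hs hf)
          (fun s hs hf T hT => inst_near r (2 * R + 2) (by omega) s hs hf T hT)
        rw [card_kset] at h5
        exact h5
      · filter_upwards with j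
        have hq0 : (0 : ℝ) < (Fintype.card (F j) : ℝ) := by exact_mod_cast Fintype.card_pos
        have hq1 := two_le_card_real (F j)
        have hq2 : (0 : ℝ) < (Fintype.card (F j) : ℝ) - 1 := by linarith
        have h5 := mom_le (Ev (F j) (n j) (k j)) (nearRel (n j) (k j) D) r _ (by positivity)
          (fun s hs hf => inst_upper (F := F j) r D s hs hf)
        rw [card_kset] at h5
        exact h5
  · intro R
    have h1 := (hN.mul (hb (2 * (2 * R + 2)))).mul_const (Cr 1)
    rw [mul_zero, zero_mul] at h1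
    refine h1.congr (fun j => ?_)
    have hq0 : (Fintype.card (F j) : ℝ) ≠ 0 := by exact_mod_cast Fintype.card_ne_zero
    field_simp
  · intro R
    filter_upwards [hn.eventually_ge_atTop 1] with j hj
    have hq0 : (0 : ℝ) < (Fintype.card (F j) : ℝ) := by exact_mod_cast Fintype.card_pos
    have h := sieve_bound (Ev (F j) (n j) (k j)) (nearRel (n j) (k j) (2 * (2 * R + 2)))
      (((2 * (2 * R + 2)) * (n j) ^ (2 * (2 * R + 2))) ^ 2)
      (near_card (n j) (k j) _ hj) (Cr 1 / (Fintype.card (F j) : ℝ) ^ 2)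
      (div_nonneg (Cr_nonneg 1) (by positivity))
      (fun S T hST => inst_near_pair (F := F j) 3 (by norm_num) S T hST.1) R
    rw [card_kset] at h
    exact h

end Pool.Agent.Lib.MP_498a73_pr
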