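import Pool.Agent.Lib.MP_498a73_pr.Defs

set_option autoImplicit false

namespace Pool.Agent.Lib.MP_498a73_pr

open Finset Module

/-- The dot product as a bilinear form. -/
noncomputable def dotForm (F : Type) [Field F] (k : ℕ) : LinearMap.BilinForm F (Fin k → F) :=
  dotProductBilin F F

lemma dotForm_apply (F : Type) [Field F] (k : ℕ) (x y : Fin k → F) :
    dotForm F k x y = x ⬝ᵥ y := rfl

lemma dotForm_isRefl (F : Type) [Field F] (k : ℕ) : (dotForm F k).IsRefl := by
  intro x y h
  rw [dotForm_apply] at h ⊢
  rw [dotProduct_comm]; exact h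

lemma dotForm_nondegenerate (F : Type) [Field F] (k : ℕ) : (dotForm F k).Nondegenerate := by
  constructor
  · intro x hx
    funext i
    have := hx (Pi.single i 1)
    simpa [dotForm_apply] using this
  · intro x hx
    funext i
    have := hx (Pi.single i 1)
    simpa [dotForm_apply] using this

/-- The submodule of vectors orthogonal to all vectors of a set. -/
noncomputable def perp {F : Type} [Field F] {k : ℕ} (A : Set (Fin k → F)) :
    Submodule F (Fin k → F) :=
  (dotForm F k).orthogonal (Submodule.span F A)

lemma mem_perp {F : Type} [Field F] {k : ℕ} (A : Set (Fin k → F)) (x : Fin k → F) :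
    x ∈ perp A ↔ ∀ u ∈ A, u ⬝ᵥ x = 0 := by
  unfold perp
  rw [LinearMap.BilinForm.mem_orthogonal_iff]
  constructor
  · intro h u hu
    have := h u (Submodule.subset_span hu)
    simpa [dotForm_apply] using this
  · intro h u hu
    induction hu using Submodule.span_induction with
    | mem u hu => simpa [dotForm_apply] using h u hu
    | zero => simp
    | add x y _ _ hx hy => simp [hx, hy]
    | smul a x _ hx => simp [hx]

lemma finrank_perp {F : Type} [Field F] {k : ℕ} (A : Set (Fin k → F)) :
    finrank F (perp A) + finrank F (Submodule.span F A) = k := by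
  unfold perp
  rw [LinearMap.BilinForm.finrank_orthogonal (dotForm_nondegenerate F k)]
  have h1 : finrank F (Submodule.span F A) ≤ finrank F (Fin k → F) := Submodule.finrank_le _
  rw [finrank_fin_fun] at h1 ⊢
  omega

open Classical in
/-- The number of vectors orthogonal to a set. -/
lemma colcount {F : Type} [Field F] [Fintype F] {k : ℕ} (A : Set (Fin k → F)) :
    (univ.filter (fun x : Fin k → F => ∀ u ∈ A, u ⬝ᵥ x = 0)).card *
      Fintype.card F ^ (finrank F (Submodule.span F A)) = Fintype.card F ^ k := by
  have h1 : (univ.filter (fun x : Fin k → F => ∀ u ∈ A, u ⬝ᵥ x = 0)).card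
      = Fintype.card (perp A) := by
    rw [Fintype.card_subtype]
    congr 1
    ext x
    simp only [mem_filter, mem_univ, true_and]
    exact (mem_perp A x).symm
  rw [h1, Module.card_eq_pow_finrank (K := F), ← pow_add, finrank_perp]

section Constraints

variable {F : Type} [Field F] [Fintype F] {n k : ℕ}

open Classical in
/-- The number of matrices whose columns satisfy given orthogonality constraints. -/
lemma gl_eq (A : Fin n → Set (Fin k → F)) :
    (univ.filter (fun M : Fin n → Fin k → F => ∀ s, ∀ u ∈ A s, u ⬝ᵥ M s = 0)).card *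
      Fintype.card F ^ (∑ s, finrank F (Submodule.span F (A s))) = Fintype.card F ^ (k * n) := by
  have h1 : (univ.filter (fun M : Fin n → Fin k → F => ∀ s, ∀ u ∈ A s, u ⬝ᵥ M s = 0))
      = Fintype.piFinset (fun s => univ.filter (fun x : Fin k → F => ∀ u ∈ A s, u ⬝ᵥ x = 0)) := by
    ext M
    simp [Fintype.mem_piFinset]
  rw [h1, Fintype.card_piFinset, ← Finset.prod_pow_eq_pow_sum, ← Finset.prod_mul_distrib]
  simp_rw [colcount]
  simp [pow_mul]

open Classical in
lemma gl_le (A : Fin n → Set (Fin k → F)) (c : Fin n → ℕ)
    (hc : ∀ s, c s ≤ finrank F (Submodule.span F (A s))) :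
    (univ.filter (fun M : Fin n → Fin k → F => ∀ s, ∀ u ∈ A s, u ⬝ᵥ M s = 0)).card *
      Fintype.card F ^ (∑ s, c s) ≤ Fintype.card F ^ (k * n) := by
  rw [← gl_eq A]
  apply Nat.mul_le_mul_left
  apply Nat.pow_le_pow_right Fintype.card_pos
  exact Finset.sum_le_sum (fun s _ => hc s)

end Constraints

end Pool.Agent.Lib.MP_498a73_pr
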