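import Mathlib

set_option autoImplicit false

namespace Pool.Agent.Lib.MP_498a73_pr

/-- The minimum Hamming distance of a linear code `C` of length `n`. -/
noncomputable def minDist {F : Type} [Field F] {n : ℕ} (C : Submodule F (Fin n → F)) : ℕ :=
  letI : DecidableEq F := Classical.decEq F
  sInf {d : ℕ | ∃ x ∈ C, ∃ y ∈ C, x ≠ y ∧ hammingDist x y = d}

/-- A linear code is MDS if its minimum distance attains the Singleton bound `n - k + 1`. -/
def IsMDS {F : Type} [Field F] {n : ℕ} (C : Submodule F (Fin n → F)) : Prop :=
  minDist C = n - Module.finrank F C + 1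

/-- The probability that a uniformly random `k`-dimensional subspace of `F ^ n` is MDS. -/
noncomputable def mdsProb (F : Type) [Field F] (n k : ℕ) : ℝ :=
  (Nat.card {C : Submodule F (Fin n → F) // Module.finrank F C = k ∧ IsMDS C} : ℝ) /
    (Nat.card {C : Submodule F (Fin n → F) // Module.finrank F C = k} : ℝ)

end Pool.Agent.Lib.MP_498a73_pr
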