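import Pool.Agent.Lib.MP_498a73_pr.Kernel

set_option autoImplicit false

namespace Pool.Agent.Lib.MP_498a73_pr

open Finset Module

section Far

variable {F : Type} [Field F] {n k : ℕ}

/-- Union of the dependency events over sub-families. -/
def DepFar {ι : Type} [Fintype ι] (S : ι → Finset (Fin n)) (M : Fin n → Fin k → F) : Prop :=
  ∃ x : Finset ι × ι × ι, ∃ h : x.2.2 ∈ x.1, x.2.1 ∉ x.1 ∧
    DepEv (fun j : x.1 => S j) (S x.2.1) ⟨x.2.2, h⟩ M

lemma li_or_depFar {ι : Type} [Fintype ι] (S : ι → Finset (Fin n)) (M : Fin n → Fin k → F)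
    (v : ι → Fin k → F) (hv0 : ∀ i, v i ≠ 0) (hk : Kt S v M) :
    LinearIndependent F v ∨ DepFar S M := by
  classical
  obtain ⟨s, hs1, hs2⟩ := exists_maximal_linearIndepOn F v
  by_cases hall : ∀ i, i ∈ s
  · left
    have : s = Set.univ := Set.eq_univ_of_forall hall
    rw [this] at hs1
    rwa [linearIndepOn_univ_iff] at hs1
  · right
    push Not at hall
    obtain ⟨i₁, hi₁⟩ := hall
    obtain ⟨a, ha, hmem⟩ := hs2 i₁ hi₁
    have hmem2 : v i₁ ∈ Submodule.span F (v '' s) := by
      have := Submodule.smul_mem _ a⁻¹ hmem
      rwa [smul_smul, inv_mul_cancel₀ ha, one_smul] at this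
    have hst : s = (s.toFinset : Set ι) := by simp
    have hrange : v '' s = Set.range (fun j : s.toFinset => v j) := by
      ext x
      simp
    rw [hrange, Submodule.mem_span_range_iff_exists_fun] at hmem2
    obtain ⟨c, hc⟩ := hmem2
    have hex : ∃ j, c j ≠ 0 := by
      by_contra hcon
      push Not at hcon
      apply hv0 i₁
      rw [← hc]
      simp [hcon]
    obtain ⟨j₀, hj₀⟩ := hex
    refine ⟨(s.toFinset, i₁, j₀.1), j₀.2, by simpa using hi₁, fun j => v j, c, ?_, hj₀, ?_, ?_⟩
    · have : LinearIndepOn F v (s.toFinset : Set ι) := by rwa [← hst]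
      exact this
    · intro j t ht
      exact hk j t ht
    · intro t ht
      rw [hc]
      exact hk i₁ t ht

variable [Fintype F]

lemma prob_depFar_le {ι : Type} [Fintype ι] (S : ι → Finset (Fin n))
    (hS : ∀ i, (S i).card = k) (D : ℕ) (hfar : ∀ i j, i ≠ j → D ≤ (S i \ S j).card) :
    prob (fun M : Fin n → Fin k → F => DepFar S M) ≤
      (2 ^ Fintype.card ι * Fintype.card ι ^ 2 : ℝ) *
        ((Fintype.card F : ℝ) ^ Fintype.card ι / (Fintype.card F : ℝ) ^ D) := by
  classical
  have hq : (0 : ℝ) < (Fintype.card F : ℝ) := by exact_mod_cast Fintype.card_pos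
  have hq1 : (1 : ℝ) ≤ (Fintype.card F : ℝ) := by exact_mod_cast Fintype.card_pos
  unfold DepFar
  refine (prob_exists_le_mul _ ((Fintype.card F : ℝ) ^ Fintype.card ι /
    (Fintype.card F : ℝ) ^ D) ?_).trans (le_of_eq ?_)
  · rintro ⟨J, i₁, j₀⟩
    by_cases h : j₀ ∈ J ∧ i₁ ∉ J
    · obtain ⟨h1, h2⟩ := h
      refine (prob_mono (r := fun M => DepEv (fun j : J => S j) (S i₁) ⟨j₀, h1⟩ M) ?_).trans ?_
      · rintro M ⟨_, _, h3⟩
        exact h3
      · refine (prob_depEv_le _ _ _).trans ?_
        have hc1 : Fintype.card J = J.card := by simp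
        have hc2 : ∑ i : J, (S i).card = k * J.card := by
          simp [hS, mul_comm]
        have hne : i₁ ≠ j₀ := by rintro rfl; exact h2 h1
        have hD := hfar i₁ j₀ hne
        rw [hc1, hc2, pow_add, pow_add, mul_div_mul_left _ _ (by positivity)]
        apply div_le_div₀ (by positivity) _ (by positivity) _
        · exact pow_le_pow_right₀ hq1 (card_le_univ J)
        · exact pow_le_pow_right₀ hq1 hD
    · have : prob (fun M : Fin n → Fin k → F => ∃ h : (J, i₁, j₀).2.2 ∈ (J, i₁, j₀).1,
          (J, i₁, j₀).2.1 ∉ (J, i₁, j₀).1 ∧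
          DepEv (fun j : (J, i₁, j₀).1 => S j) (S (J, i₁, j₀).2.1) ⟨(J, i₁, j₀).2.2, h⟩ M) = 0 := by
        rw [prob_eq]
        rw [filter_false_of_mem]
        · simp
        · rintro M _ ⟨h1, h2, _⟩
          exact h ⟨h1, h2⟩
      rw [this]
      positivity
  · congr 1
    rw [Fintype.card_prod, Fintype.card_prod, Fintype.card_finset]
    push_cast
    ring

lemma prob_li_le' {ι : Type} [Fintype ι] (S : ι → Finset (Fin n))
    (hS : ∀ i, (S i).card = k) :
    prob (fun M : Fin n → Fin k → F => ∃ v : ι → Fin k → F, LinearIndependent F v ∧ Kt S v M) ≤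
      1 / ((Fintype.card F - 1 : ℝ) ^ Fintype.card ι) := by
  have hq : (0 : ℝ) < (Fintype.card F : ℝ) := by exact_mod_cast Fintype.card_pos
  refine (prob_li_le S).trans (le_of_eq ?_)
  have h2 : ∑ i : ι, (S i).card = k * Fintype.card ι := by
    simp [hS, mul_comm]
  rw [h2, mul_comm ((Fintype.card F - 1 : ℝ) ^ Fintype.card ι), ← div_div, div_self (by positivity)]

/-- Upper bound for the probability that all sets of a far family are singular. -/
lemma prob_far_le {ι : Type} [Fintype ι] (S : ι → Finset (Fin n))
    (hS : ∀ i, (S i).card = k) (D : ℕ) (hfar : ∀ i j, i ≠ j → D ≤ (S i \ S j).card) :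
    prob (fun M : Fin n → Fin k → F => ∀ i, Sing (S i) M) ≤
      1 / ((Fintype.card F - 1 : ℝ) ^ Fintype.card ι) +
      (2 ^ Fintype.card ι * Fintype.card ι ^ 2 : ℝ) *
        ((Fintype.card F : ℝ) ^ Fintype.card ι / (Fintype.card F : ℝ) ^ D) := by
  refine le_trans (prob_mono (r := fun M => (∃ v : ι → Fin k → F, LinearIndependent F v ∧
    Kt S v M) ∨ DepFar S M) ?_) ((prob_or_le _ _).trans
    (add_le_add (prob_li_le' S hS) (prob_depFar_le S hS D hfar)))
  intro M hM
  choose v hv0 hv1 using hM
  rcases li_or_depFar S M v hv0 hv1 with h | h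
  · exact Or.inl ⟨v, h, hv1⟩
  · exact Or.inr h

/-- Upper bound for the probability that all sets of a far family and one more set
are singular. -/
lemma prob_near_le {ι : Type} [Fintype ι] (S : ι → Finset (Fin n)) (T : Finset (Fin n))
    (hS : ∀ i, (S i).card = k) (hT : T.card = k) (hTS : ∀ i, T ≠ S i) (E : ℕ)
    (hfar : ∀ i j, i ≠ j → 2 * E ≤ (S i \ S j).card) :
    prob (fun M : Fin n → Fin k → F => (∀ i, Sing (S i) M) ∧ Sing T M) ≤
      (2 ^ Fintype.card ι * Fintype.card ι ^ 2 : ℝ) *
        ((Fintype.card F : ℝ) ^ Fintype.card ι / (Fintype.card F : ℝ) ^ (2 * E)) +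
      (1 / ((Fintype.card F - 1 : ℝ) ^ (Fintype.card ι + 1)) +
      (Fintype.card ι * (1 / ((Fintype.card F - 1 : ℝ) ^ Fintype.card ι * (Fintype.card F : ℝ))) +
      Fintype.card ι * ((Fintype.card F : ℝ) ^ Fintype.card ι / (Fintype.card F : ℝ) ^ E))) := by
  classical
  have hq : (0 : ℝ) < (Fintype.card F : ℝ) := by exact_mod_cast Fintype.card_pos
  have hq1 : (1 : ℝ) ≤ (Fintype.card F : ℝ) := by exact_mod_cast Fintype.card_pos
  have hq2 : (0 : ℝ) < (Fintype.card F : ℝ) - 1 := by
    have : (1 : ℝ) < (Fintype.card F : ℝ) := by exact_mod_cast Fintype.one_lt_card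
    linarith
  have hsumS : ∑ i : ι, (S i).card = k * Fintype.card ι := by
    simp [hS, mul_comm]
  have hTpos : ∀ i, 1 ≤ (T \ S i).card := by
    intro i
    rw [Nat.one_le_iff_ne_zero, Ne, card_eq_zero, sdiff_eq_empty_iff_subset]
    intro hsub
    exact hTS i (eq_of_subset_of_card_le hsub (by rw [hS, hT]))
  -- the four events
  refine le_trans (prob_mono (r := fun M => DepFar S M ∨
    ((∃ v : Option ι → Fin k → F, LinearIndependent F v ∧
      Kt (fun o : Option ι => o.elim T S) v M) ∨
    ((∃ i : ι, ∃ v : ι → Fin k → F, LinearIndependent F v ∧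
      Kt (Function.update S i (S i ∪ T)) v M) ∨
    (∃ i : ι, E ≤ (T \ S i).card ∧ DepEv S T i M)))) ?_) ?_
  · rintro M ⟨hM, w, hw0, hw1⟩
    choose v hv0 hv1 using hM
    rcases li_or_depFar S M v hv0 hv1 with h | h
    · right
      by_cases hwspan : w ∈ Submodule.span F (Set.range v)
      · right
        rw [Submodule.mem_span_range_iff_exists_fun] at hwspan
        obtain ⟨a, ha⟩ := hwspan
        have hex : ∃ j, a j ≠ 0 := by
          by_contra hcon
          push Not at hcon
          apply hw0
          rw [← ha]
          simp [hcon]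
        obtain ⟨i₀, hi₀⟩ := hex
        by_cases hone : ∀ j, j ≠ i₀ → a j = 0
        · left
          refine ⟨i₀, v, h, ?_⟩
          have hw2 : w = a i₀ • v i₀ := by
            rw [← ha]
            rw [Finset.sum_eq_single i₀]
            · intro j _ hj
              rw [hone j hj, zero_smul]
            · intro h; exact absurd (mem_univ _) h
          intro i s hs
          by_cases hii : i = i₀
          · subst hii
            rw [Function.update_self, mem_union] at hs
            rcases hs with hs | hs
            · exact hv1 i s hs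
            · have := hw1 s hs
              rw [hw2, smul_dotProduct, smul_eq_mul, mul_eq_zero] at this
              exact this.resolve_left hi₀
          · rw [Function.update_of_ne hii] at hs
            exact hv1 i s hs
        · right
          push Not at hone
          obtain ⟨i₁, hne, hi₁⟩ := hone
          have hd : E ≤ (T \ S i₀).card ∨ E ≤ (T \ S i₁).card := by
            by_contra hcon
            push Not at hcon
            have h1 := hfar i₀ i₁ (Ne.symm hne)
            have h2 : (S i₀ \ S i₁) ⊆ (S i₀ \ T) ∪ (T \ S i₁) := by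
              intro x hx
              simp only [mem_sdiff, mem_union] at hx ⊢
              tauto
            have h3 := (card_le_card h2).trans (card_union_le _ _)
            have h4 : (S i₀ \ T).card = (T \ S i₀).card :=
              card_sdiff_comm (by rw [hS, hT])
            omega
          rcases hd with hd | hd
          · exact ⟨i₀, hd, v, a, h, hi₀, hv1, fun s hs => by rw [ha]; exact hw1 s hs⟩
          · exact ⟨i₁, hd, v, a, h, hi₁, hv1, fun s hs => by rw [ha]; exact hw1 s hs⟩
      · left
        refine ⟨_, h.option hwspan, ?_⟩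
        rintro (_ | i) s hs
        · exact hw1 s hs
        · exact hv1 i s hs
    · exact Or.inl h
  · refine (prob_or_le _ _).trans (add_le_add (prob_depFar_le S hS _ hfar) ?_)
    refine (prob_or_le _ _).trans (add_le_add ?_ ?_)
    · refine (prob_li_le' _ ?_).trans (le_of_eq ?_)
      · rintro (_ | i)
        · exact hT
        · exact hS i
      · rw [Fintype.card_option]
    · refine (prob_or_le _ _).trans (add_le_add ?_ ?_)
      · apply prob_exists_le_mul
        intro i
        refine (prob_li_le _).trans ?_
        have h1 : ∑ j, (Function.update S i (S i ∪ T) j).card = k * Fintype.card ι + (T \ S i).card := by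
          have h2 : ∀ j, (Function.update S i (S i ∪ T) j).card =
              (S j).card + (if j = i then (T \ S i).card else 0) := by
            intro j
            by_cases hj : j = i
            · subst hj
              rw [Function.update_self, if_pos rfl, ← union_sdiff_self_eq_union,
                card_union_of_disjoint disjoint_sdiff]
            · rw [Function.update_of_ne hj, if_neg hj, add_zero]
          simp_rw [h2]
          rw [sum_add_distrib, hsumS]
          simp
        rw [h1, pow_add, div_le_div_iff₀ (by positivity) (by positivity), one_mul]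
        have h3 : (Fintype.card F : ℝ) ≤ (Fintype.card F : ℝ) ^ (T \ S i).card := by
          calc (Fintype.card F : ℝ) = (Fintype.card F : ℝ) ^ 1 := by rw [pow_one]
            _ ≤ _ := pow_le_pow_right₀ hq1 (hTpos i)
        calc (Fintype.card F : ℝ) ^ (k * Fintype.card ι) *
              ((Fintype.card F - 1 : ℝ) ^ Fintype.card ι * (Fintype.card F : ℝ))
            ≤ (Fintype.card F : ℝ) ^ (k * Fintype.card ι) *
              ((Fintype.card F - 1 : ℝ) ^ Fintype.card ι * (Fintype.card F : ℝ) ^ (T \ S i).card) := by
              gcongr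
          _ = _ := by ring
      · apply prob_exists_le_mul
        intro i
        by_cases hE : E ≤ (T \ S i).card
        · refine (prob_mono (r := fun M => DepEv S T i M) (fun M hM => hM.2)).trans ?_
          refine (prob_depEv_le _ _ _).trans ?_
          rw [hsumS, pow_add, pow_add, mul_div_mul_left _ _ (by positivity)]
          apply div_le_div_of_nonneg_left (by positivity) (by positivity)
          exact pow_le_pow_right₀ hq1 hE
        · have : prob (fun M : Fin n → Fin k → F => E ≤ (T \ S i).card ∧ DepEv S T i M) = 0 := by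
            rw [prob_eq, filter_false_of_mem]
            · simp
            · rintro M _ ⟨h1, _⟩
              exact hE h1
          rw [this]
          positivity

end Far

end Pool.Agent.Lib.MP_498a73_pr
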