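import Pool.Agent.Lib.MP_498a73_pr.Reduce

set_option autoImplicit false

namespace Pool.Agent.Lib.MP_498a73_pr

open Finset Filter Topology Module

lemma choose_mono_half (n r K : ℕ) (hrK : r ≤ K) (hK : K ≤ n / 2) : n.choose r ≤ n.choose K := by
  induction K, hrK using Nat.le_induction with
  | base => exact le_rfl
  | succ m hm ih =>
    exact (ih (by omega)).trans (Nat.choose_le_succ_of_lt_half_left (by omega))

lemma pow_le_choose_half (n r : ℕ) (h : 2 * r ≤ n) :
    (n : ℝ) ^ r ≤ 2 ^ r * r.factorial * (n.choose r : ℝ) := by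
  have h1 := Nat.pow_le_choose (α := ℝ) r n
  have h2 : (0 : ℝ) < (r.factorial : ℝ) := by exact_mod_cast Nat.factorial_pos r
  rw [div_le_iff₀ h2] at h1
  have h3 : (n : ℝ) / 2 ≤ ((n + 1 - r : ℕ) : ℝ) := by
    rw [Nat.cast_sub (by omega)]
    push_cast
    have : 2 * (r : ℝ) ≤ n := by exact_mod_cast h
    linarith
  have h4 : ((n : ℝ) / 2) ^ r ≤ ((n + 1 - r : ℕ) : ℝ) ^ r :=
    pow_le_pow_left₀ (by positivity) h3 r
  rw [div_pow, div_le_iff₀ (by positivity)] at h4
  have h5 : ((n + 1 - r : ℕ) : ℝ) ^ r * 2 ^ r ≤ (n.choose r : ℝ) * (r.factorial : ℝ) * 2 ^ r :=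
    mul_le_mul_of_nonneg_right h1 (by positivity)
  linarith

lemma to_mds (n k : ℕ → ℕ) (F : ℕ → Type) [∀ j, Field (F j)] [∀ j, Fintype (F j)]
    (L : ℝ) (hk1 : ∀ j, 1 ≤ k j) (hkn : ∀ j, k j ≤ n j)
    (hq : Tendsto (fun j => Fintype.card (F j)) atTop atTop)
    (h : Tendsto (fun j => prob (fun M : Fin (n j) → Fin (k j) → F j =>
      ∀ S : KSet (n j) (k j), ¬ Ev (F j) (n j) (k j) S M)) atTop (𝓝 L)) :
    Tendsto (fun j => mdsProb (F j) (n j) (k j)) atTop (𝓝 L) := by
  have hqR : Tendsto (fun j => (Fintype.card (F j) : ℝ)) atTop atTop :=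
    tendsto_natCast_atTop_atTop.comp hq
  have hc : Tendsto (fun j => ∏ i : Fin (k j), (1 - (Fintype.card (F j) : ℝ) ^ i.val /
      (Fintype.card (F j) : ℝ) ^ (n j))) atTop (𝓝 1) := by
    have h1 : Tendsto (fun j => 1 - 1 / ((Fintype.card (F j) : ℝ) - 1)) atTop (𝓝 (1 - 0)) := by
      apply Tendsto.sub tendsto_const_nhds
      apply tendsto_const_nhds.div_atTop
      exact tendsto_atTop_add_const_right _ (-1) hqR
    rw [sub_zero] at h1
    refine tendsto_of_tendsto_of_tendsto_of_le_of_le h1 tendsto_const_nhds ?_ ?_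
    · intro j; exact (prod_bounds (F := F j) (hkn j)).1
    · intro j; exact (prod_bounds (F := F j) (hkn j)).2
  have h2 := h.div hc one_ne_zero
  rw [div_one] at h2
  refine h2.congr' ?_
  have hev := hc.eventually (lt_mem_nhds one_half_lt_one)
  filter_upwards [hev] with j hj
  have hpos : (∏ i : Fin (k j), (1 - (Fintype.card (F j) : ℝ) ^ i.val /
      (Fintype.card (F j) : ℝ) ^ (n j))) ≠ 0 := by
    have : (0 : ℝ) < 1 / 2 := by norm_num
    exact (this.trans hj).ne'
  have h3 := mdsProb_eq (F := F j) (hk1 j) (hkn j)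
  rw [Pi.div_apply, ← h3]
  exact mul_div_cancel_right₀ _ hpos

/-- Subpolynomiality of `n` in `q` when both `k` and `n - k` tend to infinity. -/
lemma poly_small (n k : ℕ → ℕ) (q : ℕ → ℝ) (lam : ℝ) (hkn : ∀ j, k j ≤ n j)
    (hn : Tendsto n atTop atTop) (hq0 : ∀ j, 0 < q j)
    (hN : Tendsto (fun j => ((n j).choose (k j) : ℝ) / q j) atTop (𝓝 lam))
    (hK : Tendsto (fun j => min (k j) (n j - k j)) atTop atTop) (C : ℕ) :
    Tendsto (fun j => ((n j : ℝ) ^ C / q j)) atTop (𝓝 0) := by
  have hnR : Tendsto (fun j => (n j : ℝ)) atTop atTop :=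
    tendsto_natCast_atTop_atTop.comp hn
  have h1 : Tendsto (fun j => (2 ^ (C + 1) * (C + 1).factorial : ℝ) / (n j : ℝ) *
      (((n j).choose (k j) : ℝ) / q j)) atTop (𝓝 0) := by
    have h2 : Tendsto (fun j => (2 ^ (C + 1) * (C + 1).factorial : ℝ) / (n j : ℝ)) atTop (𝓝 0) :=
      tendsto_const_nhds.div_atTop hnR
    have h3 := h2.mul hN
    rwa [zero_mul] at h3
  refine squeeze_zero' ?_ ?_ h1
  · filter_upwards with j
    have := hq0 j
    positivity
  · filter_upwards [hK.eventually_ge_atTop (C + 1), hn.eventually_ge_atTop 1] with j hj hj1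
    have hqj := hq0 j
    have hn0 : (0 : ℝ) < (n j : ℝ) := by exact_mod_cast hj1
    have hsym : (n j).choose (min (k j) (n j - k j)) = (n j).choose (k j) := by
      rcases le_total (k j) (n j - k j) with h | h
      · rw [min_eq_left h]
      · rw [min_eq_right h, Nat.choose_symm (hkn j)]
    have hhalf : min (k j) (n j - k j) ≤ n j / 2 := by omega
    have hge : (n j).choose (C + 1) ≤ (n j).choose (k j) := by
      rw [← hsym]
      exact choose_mono_half _ _ _ hj hhalf
    have hp := pow_le_choose_half (n j) (C + 1) (by omega)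
    have hge' : ((n j).choose (C + 1) : ℝ) ≤ ((n j).choose (k j) : ℝ) := by exact_mod_cast hge
    have h5 : (n j : ℝ) ^ (C + 1) ≤ 2 ^ (C + 1) * (C + 1).factorial * ((n j).choose (k j) : ℝ) :=
      hp.trans (mul_le_mul_of_nonneg_left hge' (by positivity))
    rw [div_mul_div_comm, div_le_div_iff₀ hqj (by positivity)]
    calc (n j : ℝ) ^ C * (n j * q j) = (n j : ℝ) ^ (C + 1) * q j := by ring
      _ ≤ _ := mul_le_mul_of_nonneg_right h5 hqj.le

theorem main (n k : ℕ → ℕ) (F : ℕ → Type) [∀ j, Field (F j)] [∀ j, Fintype (F j)]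
    (lam : ℝ) (hlam : 0 < lam) (hk1 : ∀ j, 1 ≤ k j) (hkn : ∀ j, k j ≤ n j)
    (hn : Tendsto n atTop atTop)
    (hq : Tendsto (fun j => Fintype.card (F j)) atTop atTop)
    (hN : Tendsto (fun j => ((n j).choose (k j) : ℝ) / Fintype.card (F j)) atTop (𝓝 lam)) :
    Tendsto (fun j => mdsProb (F j) (n j) (k j)) atTop (𝓝 (Real.exp (-lam))) := by
  have hqR : Tendsto (fun j => (Fintype.card (F j) : ℝ)) atTop atTop :=
    tendsto_natCast_atTop_atTop.comp hq
  -- eventually `k < n`
  have hlt : ∀ᶠ j in atTop, k j < n j := by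
    have h1 : Tendsto (fun j => (1 : ℝ) / Fintype.card (F j)) atTop (𝓝 0) :=
      tendsto_const_nhds.div_atTop hqR
    have h2 := h1.eventually (gt_mem_nhds (show (0 : ℝ) < lam / 2 by positivity))
    have h3 := hN.eventually (lt_mem_nhds (show lam / 2 < lam by linarith))
    filter_upwards [h2, h3] with j h4 h5
    rcases Nat.lt_or_ge (k j) (n j) with h | h
    · exact h
    · exfalso
      have h6 : k j = n j := le_antisymm (hkn j) h
      rw [h6, Nat.choose_self, Nat.cast_one] at h5
      linarith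
  apply tendsto_of_subseq_tendsto
  intro ns hns
  by_cases hK : Tendsto (fun i => min (k (ns i)) (n (ns i) - k (ns i))) atTop atTop
  · refine ⟨id, ?_⟩
    apply to_mds (fun i => n (ns i)) (fun i => k (ns i)) (fun i => F (ns i)) _
      (fun i => hk1 _) (fun i => hkn _) (hq.comp hns)
    apply central (fun i => n (ns i)) (fun i => k (ns i)) (fun i => F (ns i)) lam hlam
      (hn.comp hns) (hq.comp hns) (hN.comp hns)
    · exact tendsto_atTop_mono (fun i => min_le_left _ _) hK
    · intro C
      exact poly_small (fun i => n (ns i)) (fun i => k (ns i))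
        (fun i => (Fintype.card (F (ns i)) : ℝ)) lam (fun i => hkn _) (hn.comp hns)
        (fun i => by exact_mod_cast Fintype.card_pos) (hN.comp hns) hK C
  · rw [tendsto_atTop] at hK
    push Not at hK
    obtain ⟨B, hB⟩ := hK
    have hB2 : ∃ᶠ i in atTop, min (k (ns i)) (n (ns i) - k (ns i)) < B ∧ k (ns i) < n (ns i) := by
      have h1 : ∃ᶠ i in atTop, min (k (ns i)) (n (ns i) - k (ns i)) < B := by
        refine hB.mono (fun i hi => ?_)
        omega
      exact h1.and_eventually (hns.eventually hlt)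
    obtain ⟨φ, hφ1, hφ2⟩ := extraction_of_frequently_atTop hB2
    refine ⟨φ, ?_⟩
    set m : ℕ → ℕ := fun i => ns (φ i) with hm
    have hmt : Tendsto m atTop atTop := hns.comp hφ1.tendsto_atTop
    set k' : ℕ → ℕ := fun i => if k (m i) < B then k (m i) else n (m i) - k (m i) with hk'
    have hφ2' : ∀ i, min (k (m i)) (n (m i) - k (m i)) < B ∧ k (m i) < n (m i) := hφ2
    have hk'1 : ∀ i, 1 ≤ k' i := by
      intro i
      simp only [hk']
      have h1 := hφ2' i
      have h2 := hk1 (m i)
      split_ifs <;> omega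
    have hk'n : ∀ i, k' i ≤ n (m i) := by
      intro i
      simp only [hk']
      have h1 := hφ2' i
      split_ifs <;> omega
    have hk'B : ∀ i, k' i ≤ B := by
      intro i
      simp only [hk']
      have h1 := hφ2' i
      split_ifs <;> omega
    have hchoose : ∀ i, (n (m i)).choose (k' i) = (n (m i)).choose (k (m i)) := by
      intro i
      simp only [hk']
      split_ifs
      · rfl
      · exact Nat.choose_symm (hkn _)
    have hprob : ∀ i, mdsProb (F (m i)) (n (m i)) (k' i) =
        mdsProb (F (m i)) (n (m i)) (k (m i)) := by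
      intro i
      simp only [hk']
      split_ifs
      · rfl
      · exact mdsProb_dual (hk1 _) (hφ2' i).2
    have hfin : Tendsto (fun i => mdsProb (F (m i)) (n (m i)) (k' i)) atTop
        (𝓝 (Real.exp (-lam))) := by
      apply to_mds (fun i => n (m i)) k' (fun i => F (m i)) _ hk'1 hk'n (hq.comp hmt)
      apply bounded_case (fun i => n (m i)) k' (fun i => F (m i)) lam B hk'1 hk'n hk'B
        (hn.comp hmt) (hq.comp hmt)
      have h1 := hN.comp hmt
      refine h1.congr (fun i => ?_)
      simp only [Function.comp_apply]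
      rw [hchoose i]
    refine hfin.congr (fun i => ?_)
    exact hprob i

end Pool.Agent.Lib.MP_498a73_pr
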