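import Pool.Agent.Lib.MP_498a73_pr.Count

set_option autoImplicit false

namespace Pool.Agent.Lib.MP_498a73_pr

open Finset Module

section Prob

open Classical in
/-- Number of elements of a finite type satisfying a predicate. -/
noncomputable def cnt {Ω : Type} [Fintype Ω] (p : Ω → Prop) : ℕ :=
  (univ.filter p).card

/-- Uniform probability of an event on a finite type. -/
noncomputable def prob {Ω : Type} [Fintype Ω] (p : Ω → Prop) : ℝ :=
  (cnt p : ℝ) / (Fintype.card Ω : ℝ)

variable {Ω : Type} [Fintype Ω]

lemma cnt_eq (p : Ω → Prop) [DecidablePred p] : cnt p = (univ.filter p).card := by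
  unfold cnt
  congr

lemma prob_eq (p : Ω → Prop) [DecidablePred p] :
    prob p = ((univ.filter p).card : ℝ) / (Fintype.card Ω : ℝ) := by
  unfold prob
  rw [cnt_eq]

lemma prob_nonneg (p : Ω → Prop) : 0 ≤ prob p := by
  unfold prob; positivity

lemma prob_mono {p r : Ω → Prop} (h : ∀ ω, p ω → r ω) : prob p ≤ prob r := by
  classical
  rw [prob_eq, prob_eq]
  apply div_le_div_of_nonneg_right _ (by positivity)
  exact_mod_cast card_le_card (fun ω hω => by
    simp only [mem_filter, mem_univ, true_and] at hω ⊢
    exact h ω hω)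

lemma prob_or_le (p r : Ω → Prop) : prob (fun ω => p ω ∨ r ω) ≤ prob p + prob r := by
  classical
  rw [prob_eq, prob_eq, prob_eq]
  rw [← add_div]
  apply div_le_div_of_nonneg_right _ (by positivity)
  rw [← Nat.cast_add]
  refine Nat.cast_le.mpr (le_trans (card_le_card (t := univ.filter p ∪ univ.filter r) ?_)
    (card_union_le _ _))
  intro ω hω
  simp only [mem_filter, mem_univ, true_and, mem_union] at hω ⊢
  exact hω

lemma prob_exists_le {α : Type} [Fintype α] (p : α → Ω → Prop) :
    prob (fun ω => ∃ a, p a ω) ≤ ∑ a, prob (p a) := by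
  classical
  simp_rw [prob_eq]
  rw [← Finset.sum_div]
  apply div_le_div_of_nonneg_right _ (by positivity)
  have h2 := card_biUnion_le (s := (univ : Finset α)) (t := fun a => univ.filter (p a))
  refine le_trans (Nat.cast_le.mpr (card_le_card (t := univ.biUnion
    (fun a => univ.filter (p a))) ?_)) ?_
  · intro ω hω
    simp only [mem_filter, mem_univ, true_and, mem_biUnion] at hω ⊢
    exact hω
  · refine le_trans (Nat.cast_le.mpr h2) ?_
    rw [Nat.cast_sum]

lemma prob_exists_le_mul {α : Type} [Fintype α] (p : α → Ω → Prop) (c : ℝ)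
    (h : ∀ a, prob (p a) ≤ c) :
    prob (fun ω => ∃ a, p a ω) ≤ (Fintype.card α : ℝ) * c := by
  refine (prob_exists_le p).trans ?_
  calc ∑ a, prob (p a) ≤ ∑ _a : α, c := Finset.sum_le_sum (fun a _ => h a)
    _ = (Fintype.card α : ℝ) * c := by simp

end Prob

section Kernel

variable {F : Type} [Field F] {n k : ℕ}

/-- `v i` is orthogonal to all columns with index in `S i`. -/
def Kt {ι : Type} (S : ι → Finset (Fin n)) (v : ι → Fin k → F) (M : Fin n → Fin k → F) : Prop :=
  ∀ i, ∀ s ∈ S i, v i ⬝ᵥ M s = 0

/-- The columns with index in `S` do not span. -/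
def Sing (S : Finset (Fin n)) (M : Fin n → Fin k → F) : Prop :=
  ∃ v : Fin k → F, v ≠ 0 ∧ ∀ s ∈ S, v ⬝ᵥ M s = 0

open Classical in
lemma finrank_span_sub {ι : Type} [Fintype ι] {v : ι → Fin k → F}
    (hv : LinearIndependent F v) (J : Finset ι) :
    finrank F (Submodule.span F (v '' (J : Set ι))) = J.card := by
  have h1 : LinearIndependent F (v ∘ (Subtype.val : {i // i ∈ J} → ι)) :=
    hv.comp _ Subtype.val_injective
  have h2 := finrank_span_eq_card h1
  rw [Set.range_comp] at h2
  have h3 : Set.range (Subtype.val : {i // i ∈ J} → ι) = (J : Set ι) := by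
    ext i; simp
  rw [h3] at h2
  rw [h2]; simp

open Classical in
lemma sum_cnt {ι : Type} [Fintype ι] (S : ι → Finset (Fin n)) :
    ∑ s, (univ.filter (fun i => s ∈ S i)).card = ∑ i, (S i).card := by
  simp_rw [card_filter]
  rw [sum_comm]
  apply sum_congr rfl
  intro i _
  simp

variable [Fintype F]

open Classical in
lemma kt_card {ι : Type} [Fintype ι] (S : ι → Finset (Fin n)) {v : ι → Fin k → F}
    (hv : LinearIndependent F v) :
    (univ.filter (fun M => Kt S v M)).card * Fintype.card F ^ (∑ i, (S i).card)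
      = Fintype.card F ^ (k * n) := by
  have h := gl_eq (fun s : Fin n => v '' ((univ.filter (fun i => s ∈ S i) : Finset ι) : Set ι))
  simp_rw [finrank_span_sub hv] at h
  rw [sum_cnt] at h
  rw [← h]
  congr 2
  ext M
  simp only [mem_filter, mem_univ, true_and, Kt]
  constructor
  · rintro h s u ⟨i, hi, rfl⟩
    simp at hi
    exact h i s hi
  · intro h i s hs
    exact h s (v i) ⟨i, by simpa using hs, rfl⟩

open Classical in
lemma kt_dep_card {ι : Type} [Fintype ι] (S : ι → Finset (Fin n)) (T : Finset (Fin n))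
    {v : ι → Fin k → F} (hv : LinearIndependent F v) (a : ι → F) (i₀ : ι) (ha : a i₀ ≠ 0) :
    (univ.filter (fun M => Kt S v M ∧ ∀ s ∈ T, (∑ i, a i • v i) ⬝ᵥ M s = 0)).card *
      Fintype.card F ^ (∑ i, (S i).card + (T \ S i₀).card) ≤ Fintype.card F ^ (k * n) := by
  set w := ∑ i, a i • v i with hw
  have h := gl_le (fun s : Fin n => v '' ((univ.filter (fun i => s ∈ S i) : Finset ι) : Set ι) ∪
      {u | u = w ∧ s ∈ T})
      (fun s => (univ.filter (fun i => s ∈ S i)).card + (if s ∈ T \ S i₀ then 1 else 0)) ?_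
  · rw [sum_add_distrib, sum_cnt] at h
    have h1 : ∑ s : Fin n, (if s ∈ T \ S i₀ then 1 else 0) = (T \ S i₀).card := by
      rw [Finset.sum_ite_mem univ (T \ S i₀) (fun _ => 1), univ_inter, card_eq_sum_ones]
    rw [h1] at h
    refine le_trans (Nat.mul_le_mul_right _ (card_le_card ?_)) h
    intro M
    simp only [mem_filter, mem_univ, true_and, Kt]
    rintro ⟨hM1, hM2⟩ s u (⟨i, hi, rfl⟩ | ⟨rfl, hs⟩)
    · simp at hi
      exact hM1 i s hi
    · exact hM2 s hs
  · intro s
    by_cases hs : s ∈ T \ S i₀
    · rw [if_pos hs]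
      rw [mem_sdiff] at hs
      have hv' : LinearIndependent F (Function.update v i₀ w) := by
        apply hv.update
        refine ⟨1, one_mem _, Finsupp.equivFunOnFinite.symm a, ?_, ?_⟩
        · simpa using ha
        · rw [Finsupp.linearCombination_apply, Finsupp.sum_fintype]
          · simp [hw]
          · simp
      set J : Finset ι := insert i₀ (univ.filter (fun i => s ∈ S i)) with hJ
      have hJc : J.card = (univ.filter (fun i => s ∈ S i)).card + 1 := by
        rw [hJ, card_insert_of_notMem]
        simp [hs.2]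
      rw [← hJc, ← finrank_span_sub hv' J]
      apply Submodule.finrank_mono
      apply Submodule.span_mono
      rintro u ⟨i, hi, rfl⟩
      rw [hJ, coe_insert] at hi
      by_cases hi0 : i = i₀
      · subst hi0
        right
        simp [hs.1]
      · left
        refine ⟨i, ?_, by simp [hi0]⟩
        simpa [hi0] using hi
    · rw [if_neg hs, add_zero, ← finrank_span_sub hv]
      apply Submodule.finrank_mono
      apply Submodule.span_mono
      exact Set.subset_union_left

omit [Field F] in
lemma card_mat : Fintype.card (Fin n → Fin k → F) = Fintype.card F ^ (k * n) := by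
  simp [pow_mul]

lemma prob_le_inv (p : (Fin n → Fin k → F) → Prop) (m : ℕ)
    (h : cnt p * Fintype.card F ^ m ≤ Fintype.card F ^ (k * n)) :
    prob p ≤ 1 / (Fintype.card F : ℝ) ^ m := by
  have hq : (0 : ℝ) < (Fintype.card F : ℝ) := by exact_mod_cast Fintype.card_pos
  unfold prob
  rw [card_mat, div_le_div_iff₀ (by positivity) (by positivity)]
  rw [one_mul]
  exact_mod_cast h

/-- The dependency event: there are linearly independent kernel vectors for the family `S`, a
linear combination of which, with nonzero coefficient at `i₀`, is a kernel vector for `T`. -/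
def DepEv {ι : Type} [Fintype ι] (S : ι → Finset (Fin n)) (T : Finset (Fin n)) (i₀ : ι)
    (M : Fin n → Fin k → F) : Prop :=
  ∃ v : ι → Fin k → F, ∃ a : ι → F, LinearIndependent F v ∧ a i₀ ≠ 0 ∧ Kt S v M ∧
    ∀ s ∈ T, (∑ i, a i • v i) ⬝ᵥ M s = 0

lemma prob_depEv_le {ι : Type} [Fintype ι] (S : ι → Finset (Fin n)) (T : Finset (Fin n))
    (i₀ : ι) :
    prob (fun M : Fin n → Fin k → F => DepEv S T i₀ M) ≤
      (Fintype.card F : ℝ) ^ (k * Fintype.card ι + Fintype.card ι) /
        (Fintype.card F : ℝ) ^ (∑ i, (S i).card + (T \ S i₀).card) := by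
  classical
  have hq : (0 : ℝ) < (Fintype.card F : ℝ) := by exact_mod_cast Fintype.card_pos
  have h1 : prob (fun M : Fin n → Fin k → F => DepEv S T i₀ M) ≤
      prob (fun M : Fin n → Fin k → F => ∃ x : (ι → Fin k → F) × (ι → F),
        LinearIndependent F x.1 ∧ x.2 i₀ ≠ 0 ∧ Kt S x.1 M ∧
          ∀ s ∈ T, (∑ i, x.2 i • x.1 i) ⬝ᵥ M s = 0) := by
    apply prob_mono
    rintro M ⟨v, a, h⟩
    exact ⟨(v, a), h⟩
  refine h1.trans ?_
  refine (prob_exists_le_mul _ (1 / (Fintype.card F : ℝ) ^ (∑ i, (S i).card + (T \ S i₀).card))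
    ?_).trans ?_
  · rintro ⟨v, a⟩
    apply prob_le_inv
    rw [cnt_eq]
    by_cases hv : LinearIndependent F v ∧ a i₀ ≠ 0
    · refine le_trans (Nat.mul_le_mul_right _ (card_le_card ?_)) (kt_dep_card S T hv.1 a i₀ hv.2)
      intro M
      simp only [mem_filter, mem_univ, true_and]
      rintro ⟨_, _, h3, h4⟩
      exact ⟨h3, h4⟩
    · rw [filter_false_of_mem]
      · simp
      · rintro M _ ⟨h1, h2, _⟩
        exact hv ⟨h1, h2⟩
  · apply le_of_eq
    rw [Fintype.card_prod, Fintype.card_fun, Fintype.card_fun, Fintype.card_fun, Fintype.card_fin,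
      mul_one_div]
    congr 1
    push_cast
    rw [pow_add, pow_mul]

open Classical in
/-- The number of linearly independent kernel families. -/
noncomputable def Ycount {ι : Type} [Fintype ι] (S : ι → Finset (Fin n))
    (M : Fin n → Fin k → F) : ℕ :=
  (univ.filter (fun v : ι → Fin k → F => LinearIndependent F v ∧ Kt S v M)).card

open Classical in
lemma sum_Ycount {ι : Type} [Fintype ι] (S : ι → Finset (Fin n)) :
    (∑ M : Fin n → Fin k → F, Ycount S M) * Fintype.card F ^ (∑ i, (S i).card) =
      (univ.filter (fun v : ι → Fin k → F => LinearIndependent F v)).card *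
        Fintype.card F ^ (k * n) := by
  have h1 : (∑ M : Fin n → Fin k → F, Ycount S M) =
      ∑ v ∈ univ.filter (fun v : ι → Fin k → F => LinearIndependent F v),
        (univ.filter (fun M => Kt S v M)).card := by
    unfold Ycount
    simp_rw [card_filter]
    rw [sum_comm, sum_filter]
    apply sum_congr rfl
    intro v _
    by_cases hv : LinearIndependent F v
    · simp [hv]
    · simp [hv]
  rw [h1, sum_mul]
  rw [sum_congr rfl (fun v hv => kt_card S (by simpa using hv))]
  simp

lemma pow_le_Ycount {ι : Type} [Fintype ι] (S : ι → Finset (Fin n))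
    (M : Fin n → Fin k → F) (v : ι → Fin k → F) (hv : LinearIndependent F v) (hk : Kt S v M) :
    (Fintype.card F - 1) ^ Fintype.card ι ≤ Ycount S M := by
  classical
  have h1 : Fintype.card (ι → Fˣ) = (Fintype.card F - 1) ^ Fintype.card ι := by
    rw [Fintype.card_fun, Fintype.card_units]
  rw [← h1, ← Finset.card_univ]
  unfold Ycount
  apply card_le_card_of_injOn (fun c : ι → Fˣ => fun i => c i • v i)
  · intro c _
    simp only [coe_filter, mem_univ, true_and, Set.mem_ofPred_eq]
    refine ⟨hv.units_smul c, ?_⟩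
    intro i s hs
    change ((c i : F) • v i) ⬝ᵥ M s = 0
    rw [smul_dotProduct, hk i s hs, smul_zero]
  · intro c _ d _ h
    funext i
    have := congrFun h i
    simp only [Units.smul_def] at this
    have h3 := smul_left_injective F (hv.ne_zero i) this
    exact Units.ext h3

lemma prob_li_le {ι : Type} [Fintype ι] (S : ι → Finset (Fin n)) :
    prob (fun M : Fin n → Fin k → F => ∃ v : ι → Fin k → F, LinearIndependent F v ∧ Kt S v M) ≤
      (Fintype.card F : ℝ) ^ (k * Fintype.card ι) /
        ((Fintype.card F - 1 : ℝ) ^ Fintype.card ι *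
          (Fintype.card F : ℝ) ^ (∑ i, (S i).card)) := by
  classical
  have hq : (0 : ℝ) < (Fintype.card F : ℝ) := by exact_mod_cast Fintype.card_pos
  have hq1 : 1 < Fintype.card F := Fintype.one_lt_card
  have hq2 : (0 : ℝ) < (Fintype.card F : ℝ) - 1 := by
    have : (1 : ℝ) < (Fintype.card F : ℝ) := by exact_mod_cast hq1
    linarith
  have h1 : cnt (fun M : Fin n → Fin k → F =>
      ∃ v : ι → Fin k → F, LinearIndependent F v ∧ Kt S v M) *
      (Fintype.card F - 1) ^ Fintype.card ι ≤ ∑ M : Fin n → Fin k → F, Ycount S M := by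
    rw [cnt_eq, ← smul_eq_mul, ← sum_const]
    refine le_trans (sum_le_sum (fun M hM => ?_)) (sum_le_sum_of_subset (filter_subset _ _))
    simp only [mem_filter, mem_univ, true_and] at hM
    obtain ⟨v, hv, hk⟩ := hM
    exact pow_le_Ycount S M v hv hk
  have h2 : (univ.filter (fun v : ι → Fin k → F => LinearIndependent F v)).card ≤
      Fintype.card F ^ (k * Fintype.card ι) := by
    refine (card_filter_le _ _).trans ?_
    rw [Finset.card_univ, Fintype.card_fun, Fintype.card_fun, Fintype.card_fin, pow_mul]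
  have h3 : cnt (fun M : Fin n → Fin k → F =>
      ∃ v : ι → Fin k → F, LinearIndependent F v ∧ Kt S v M) *
      (Fintype.card F - 1) ^ Fintype.card ι * Fintype.card F ^ (∑ i, (S i).card) ≤
      Fintype.card F ^ (k * Fintype.card ι) * Fintype.card F ^ (k * n) := by
    refine (Nat.mul_le_mul_right _ h1).trans ?_
    rw [sum_Ycount]
    exact Nat.mul_le_mul_right _ h2
  unfold prob
  rw [card_mat, div_le_div_iff₀ (by positivity) (by positivity)]
  have h4 : ((Fintype.card F : ℝ) - 1) = ((Fintype.card F - 1 : ℕ) : ℝ) := by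
    rw [Nat.cast_sub hq1.le]; simp
  rw [h4, ← mul_assoc]
  exact_mod_cast h3

end Kernel

end Pool.Agent.Lib.MP_498a73_pr
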