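import Pool.Agent.Lib.MP_498a73_pr.Far

set_option autoImplicit false

namespace Pool.Agent.Lib.MP_498a73_pr

open Finset Module

section Lower

variable {F : Type} [Field F] [Fintype F] {n k : ℕ}

open Classical in
/-- Pairs of a linearly independent kernel family and one more independent kernel vector. -/
noncomputable def Zcount {ι : Type} [Fintype ι] (S : ι → Finset (Fin n)) (i : ι)
    (M : Fin n → Fin k → F) : ℕ :=
  (univ.filter (fun x : (ι → Fin k → F) × (Fin k → F) => LinearIndependent F x.1 ∧ Kt S x.1 M ∧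
    (∀ s ∈ S i, x.2 ⬝ᵥ M s = 0) ∧ x.2 ∉ Submodule.span F {x.1 i})).card

lemma Ycount_mul_le_Zcount {ι : Type} [Fintype ι] (S : ι → Finset (Fin n)) (i : ι)
    (M : Fin n → Fin k → F) (v₀ w₀ : Fin k → F) (hv0 : v₀ ≠ 0) (hv : ∀ s ∈ S i, v₀ ⬝ᵥ M s = 0)
    (hw : ∀ s ∈ S i, w₀ ⬝ᵥ M s = 0) (hw0 : w₀ ∉ Submodule.span F {v₀}) :
    Ycount S M * (Fintype.card F ^ 2 - Fintype.card F) ≤ Zcount S i M := by
  classical
  set K : Submodule F (Fin k → F) := perp (M '' (S i : Set (Fin n))) with hK
  have hmem : ∀ x, x ∈ K ↔ ∀ s ∈ S i, x ⬝ᵥ M s = 0 := by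
    intro x
    rw [hK, mem_perp]
    constructor
    · intro h s hs
      rw [dotProduct_comm]
      exact h _ ⟨s, by simpa using hs, rfl⟩
    · rintro h u ⟨s, hs, rfl⟩
      rw [dotProduct_comm]
      exact h s (by simpa using hs)
  have hfr : 2 ≤ finrank F K := by
    have h1 : Submodule.span F {v₀} < K := by
      rw [SetLike.lt_iff_le_and_exists]
      refine ⟨?_, w₀, (hmem _).2 hw, hw0⟩
      rw [Submodule.span_singleton_le_iff_mem]
      exact (hmem _).2 hv
    have h2 := Submodule.finrank_lt_finrank_of_lt h1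
    rw [finrank_span_singleton hv0] at h2
    omega
  have hKcard : Fintype.card F ^ 2 ≤ Fintype.card K := by
    rw [Module.card_eq_pow_finrank (K := F) (V := K)]
    exact Nat.pow_le_pow_right Fintype.card_pos hfr
  have hcount : ∀ u : Fin k → F, u ≠ 0 → u ∈ K → Fintype.card F ^ 2 - Fintype.card F ≤
      (univ.filter (fun w : Fin k → F => (∀ s ∈ S i, w ⬝ᵥ M s = 0) ∧
        w ∉ Submodule.span F {u})).card := by
    intro u hu huK
    have h1 : (univ.filter (fun w : Fin k → F => (∀ s ∈ S i, w ⬝ᵥ M s = 0) ∧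
        w ∉ Submodule.span F {u})) = univ.filter (fun w => w ∈ K) \
          univ.filter (fun w => w ∈ Submodule.span F {u}) := by
      ext w
      simp only [mem_filter, mem_univ, true_and, mem_sdiff]
      rw [hmem]
    rw [h1, card_sdiff_of_subset]
    · have h2 : (univ.filter (fun w => w ∈ K)).card = Fintype.card K := by
        rw [Fintype.card_subtype]
      have h3 : (univ.filter (fun w => w ∈ Submodule.span F {u})).card = Fintype.card F := by
        rw [← Fintype.card_subtype, Module.card_eq_pow_finrank (K := F)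
          (V := (Submodule.span F {u} : Submodule F (Fin k → F))), finrank_span_singleton hu,
          pow_one]
      rw [h2, h3]
      omega
    · intro w hw
      simp only [mem_filter, mem_univ, true_and] at hw ⊢
      exact ((Submodule.span_singleton_le_iff_mem _ _).2 huK) hw
  unfold Ycount Zcount
  rw [← smul_eq_mul, ← sum_const]
  have h4 : (univ.filter (fun x : (ι → Fin k → F) × (Fin k → F) => LinearIndependent F x.1 ∧
      Kt S x.1 M ∧ (∀ s ∈ S i, x.2 ⬝ᵥ M s = 0) ∧ x.2 ∉ Submodule.span F {x.1 i})).card =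
      ∑ v ∈ univ.filter (fun v : ι → Fin k → F => LinearIndependent F v ∧ Kt S v M),
        (univ.filter (fun w : Fin k → F => (∀ s ∈ S i, w ⬝ᵥ M s = 0) ∧
        w ∉ Submodule.span F {v i})).card := by
    rw [← card_sigma]
    apply card_bij (fun x _ => ⟨x.1, x.2⟩)
    · rintro ⟨v, w⟩ h
      simp only [mem_filter, mem_univ, true_and, mem_sigma] at h ⊢
      exact ⟨⟨h.1, h.2.1⟩, h.2.2⟩
    · rintro ⟨v, w⟩ _ ⟨v', w'⟩ _ h
      simp only [Sigma.mk.injEq, heq_eq_eq] at h
      exact Prod.ext h.1 h.2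
    · rintro ⟨v, w⟩ h
      simp only [mem_filter, mem_univ, true_and, mem_sigma] at h
      exact ⟨(v, w), by simp only [mem_filter, mem_univ, true_and]; exact
        ⟨h.1.1, h.1.2, h.2⟩, rfl⟩
  rw [h4]
  apply sum_le_sum
  intro v hv'
  simp only [mem_filter, mem_univ, true_and] at hv'
  exact hcount (v i) (hv'.1.ne_zero i) ((hmem _).2 (hv'.2 i))

lemma Ycount_le_pow {ι : Type} [Fintype ι] (S : ι → Finset (Fin n))
    (M : Fin n → Fin k → F) (v₀ : ι → Fin k → F)
    (h : ∀ i, ∀ w : Fin k → F, (∀ s ∈ S i, w ⬝ᵥ M s = 0) → w ∈ Submodule.span F {v₀ i}) :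
    Ycount S M ≤ (Fintype.card F - 1) ^ Fintype.card ι := by
  classical
  have h1 : Fintype.card (ι → Fˣ) = (Fintype.card F - 1) ^ Fintype.card ι := by
    rw [Fintype.card_fun, Fintype.card_units]
  rw [← h1, ← Finset.card_univ]
  refine le_trans (card_le_card (t := (univ : Finset (ι → Fˣ)).image
    (fun c => fun i => c i • v₀ i)) ?_) card_image_le
  intro v hv
  simp only [mem_filter, mem_univ, true_and] at hv
  rw [mem_image]
  have h2 : ∀ i, ∃ c : Fˣ, c • v₀ i = v i := by
    intro i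
    have h3 := h i (v i) (hv.2 i)
    rw [Submodule.mem_span_singleton] at h3
    obtain ⟨a, ha⟩ := h3
    have ha0 : a ≠ 0 := by
      rintro rfl
      rw [zero_smul] at ha
      exact hv.1.ne_zero i ha.symm
    exact ⟨Units.mk0 a ha0, ha⟩
  choose c hc using h2
  exact ⟨c, mem_univ _, funext hc⟩

lemma Ycount_bound {ι : Type} [Fintype ι] (S : ι → Finset (Fin n))
    (M : Fin n → Fin k → F) [Decidable (∀ i, Sing (S i) M)] :
    Ycount S M * (Fintype.card F ^ 2 - Fintype.card F) ≤
      (if (∀ i, Sing (S i) M) then (Fintype.card F - 1) ^ Fintype.card ι *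
        (Fintype.card F ^ 2 - Fintype.card F) else 0) + ∑ i, Zcount S i M := by
  classical
  by_cases hY : Ycount S M = 0
  · rw [hY]; simp
  · have hpos : 0 < Ycount S M := Nat.pos_of_ne_zero hY
    unfold Ycount at hpos
    rw [card_pos] at hpos
    obtain ⟨v₀, hv₀⟩ := hpos
    simp only [mem_filter, mem_univ, true_and] at hv₀
    have hs : ∀ i, Sing (S i) M := fun i => ⟨v₀ i, hv₀.1.ne_zero i, hv₀.2 i⟩
    rw [if_pos hs]
    by_cases hc : ∀ i, ∀ w : Fin k → F, (∀ s ∈ S i, w ⬝ᵥ M s = 0) →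
        w ∈ Submodule.span F {v₀ i}
    · exact le_trans (Nat.mul_le_mul_right _ (Ycount_le_pow S M v₀ hc)) (Nat.le_add_right _ _)
    · push Not at hc
      obtain ⟨i, w, hw1, hw2⟩ := hc
      refine le_trans (Ycount_mul_le_Zcount S i M (v₀ i) w (hv₀.1.ne_zero i) (hv₀.2 i) hw1 hw2) ?_
      refine le_trans ?_ (Nat.le_add_left _ _)
      exact single_le_sum (f := fun i => Zcount S i M) (fun _ _ => Nat.zero_le _) (mem_univ i)

open Classical in
/-- Coefficient version of the dependent part of `Zcount`. -/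
noncomputable def Wcount {ι : Type} [Fintype ι] (S : ι → Finset (Fin n)) (i : ι)
    (M : Fin n → Fin k → F) : ℕ :=
  (univ.filter (fun x : (ι → Fin k → F) × (ι → F) => LinearIndependent F x.1 ∧
    (∃ l, l ≠ i ∧ x.2 l ≠ 0) ∧ Kt S x.1 M ∧
    (∀ s ∈ S i, (∑ j, x.2 j • x.1 j) ⬝ᵥ M s = 0))).card

lemma Zcount_le {ι : Type} [Fintype ι] (S : ι → Finset (Fin n)) (i : ι)
    (M : Fin n → Fin k → F) :
    Zcount S i M ≤ Ycount (fun o : Option ι => o.elim (S i) S) M + Wcount S i M := by
  classical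
  unfold Zcount
  have h1 : (univ.filter (fun x : (ι → Fin k → F) × (Fin k → F) => LinearIndependent F x.1 ∧
      Kt S x.1 M ∧ (∀ s ∈ S i, x.2 ⬝ᵥ M s = 0) ∧ x.2 ∉ Submodule.span F {x.1 i})) ⊆
      (univ.filter (fun x : (ι → Fin k → F) × (Fin k → F) => LinearIndependent F x.1 ∧
      Kt S x.1 M ∧ (∀ s ∈ S i, x.2 ⬝ᵥ M s = 0) ∧ x.2 ∉ Submodule.span F (Set.range x.1))) ∪
      (univ.filter (fun x : (ι → Fin k → F) × (Fin k → F) => LinearIndependent F x.1 ∧
      Kt S x.1 M ∧ (∀ s ∈ S i, x.2 ⬝ᵥ M s = 0) ∧ x.2 ∉ Submodule.span F {x.1 i} ∧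
        x.2 ∈ Submodule.span F (Set.range x.1))) := by
    intro x hx
    simp only [mem_filter, mem_univ, true_and, mem_union] at hx ⊢
    by_cases h : x.2 ∈ Submodule.span F (Set.range x.1)
    · right; exact ⟨hx.1, hx.2.1, hx.2.2.1, hx.2.2.2, h⟩
    · left; exact ⟨hx.1, hx.2.1, hx.2.2.1, h⟩
  refine (card_le_card h1).trans ((card_union_le _ _).trans (add_le_add ?_ ?_))
  · unfold Ycount
    apply card_le_card_of_injOn (fun x => fun o : Option ι => Option.casesOn' o x.2 x.1)
    · rintro ⟨v, w⟩ h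
      simp only [coe_filter, mem_univ, true_and, Set.mem_ofPred_eq] at h ⊢
      refine ⟨h.1.option h.2.2.2, ?_⟩
      rintro (_ | j) s hs
      · exact h.2.2.1 s hs
      · exact h.2.1 j s hs
    · rintro ⟨v, w⟩ _ ⟨v', w'⟩ _ h
      apply Prod.ext
      · funext j
        exact congrFun h (some j)
      · exact congrFun h none
  · unfold Wcount
    refine le_trans (card_le_card (t := (univ.filter (fun x : (ι → Fin k → F) × (ι → F) =>
      LinearIndependent F x.1 ∧ (∃ l, l ≠ i ∧ x.2 l ≠ 0) ∧ Kt S x.1 M ∧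
      (∀ s ∈ S i, (∑ j, x.2 j • x.1 j) ⬝ᵥ M s = 0))).image
        (fun x => (x.1, ∑ j, x.2 j • x.1 j))) ?_) card_image_le
    rintro ⟨v, w⟩ h
    simp only [mem_filter, mem_univ, true_and] at h
    obtain ⟨hv, hk, hw, hw1, hw2⟩ := h
    rw [Submodule.mem_span_range_iff_exists_fun] at hw2
    obtain ⟨a, ha⟩ := hw2
    rw [mem_image]
    refine ⟨(v, a), ?_, by simp [ha]⟩
    simp only [mem_filter, mem_univ, true_and]
    refine ⟨hv, ?_, hk, ?_⟩
    · by_contra hcon
      push Not at hcon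
      apply hw1
      rw [← ha, Finset.sum_eq_single i]
      · exact Submodule.smul_mem _ _ (Submodule.subset_span rfl)
      · intro j _ hj
        rw [hcon j hj, zero_smul]
      · intro h; exact absurd (mem_univ _) h
    · rw [ha]; exact hw

lemma sum_Ycount_le {ι : Type} [Fintype ι] (S : ι → Finset (Fin n))
    (hS : ∀ i, (S i).card = k) :
    ∑ M : Fin n → Fin k → F, Ycount S M ≤ Fintype.card F ^ (k * n) := by
  classical
  have h := sum_Ycount (F := F) (k := k) S
  have h2 : ∑ i : ι, (S i).card = k * Fintype.card ι := by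
    simp [hS, mul_comm]
  have h3 : (univ.filter (fun v : ι → Fin k → F => LinearIndependent F v)).card ≤
      Fintype.card F ^ (k * Fintype.card ι) := by
    refine (card_filter_le _ _).trans ?_
    rw [Finset.card_univ, Fintype.card_fun, Fintype.card_fun, Fintype.card_fin, pow_mul]
  rw [h2] at h
  have h4 : 0 < Fintype.card F ^ (k * Fintype.card ι) := pow_pos Fintype.card_pos _
  refine Nat.le_of_mul_le_mul_right (c := Fintype.card F ^ (k * Fintype.card ι)) ?_ h4
  rw [h, mul_comm (Fintype.card F ^ (k * n))]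
  exact Nat.mul_le_mul_right _ h3

lemma sum_Wcount_le {ι : Type} [Fintype ι] (S : ι → Finset (Fin n)) (i : ι)
    (hS : ∀ i, (S i).card = k) (D : ℕ) (hfar : ∀ i j, i ≠ j → D ≤ (S i \ S j).card) :
    (∑ M : Fin n → Fin k → F, Wcount S i M) * Fintype.card F ^ D ≤
      Fintype.card F ^ Fintype.card ι * Fintype.card F ^ (k * n) := by
  classical
  have h2 : ∑ i : ι, (S i).card = k * Fintype.card ι := by
    simp [hS, mul_comm]
  have h1 : (∑ M : Fin n → Fin k → F, Wcount S i M) =
      ∑ x ∈ univ.filter (fun x : (ι → Fin k → F) × (ι → F) => LinearIndependent F x.1 ∧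
        (∃ l, l ≠ i ∧ x.2 l ≠ 0)),
        (univ.filter (fun M : Fin n → Fin k → F => Kt S x.1 M ∧
          (∀ s ∈ S i, (∑ j, x.2 j • x.1 j) ⬝ᵥ M s = 0))).card := by
    unfold Wcount
    simp_rw [card_filter]
    rw [sum_comm, sum_filter]
    apply sum_congr rfl
    intro x _
    by_cases hx : LinearIndependent F x.1 ∧ (∃ l, l ≠ i ∧ x.2 l ≠ 0)
    · rw [if_pos hx]
      apply sum_congr rfl
      intro M _
      simp only [hx.1, hx.2, true_and]
    · rw [if_neg hx]
      apply sum_eq_zero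
      intro M _
      rw [if_neg]
      rintro ⟨h1, h2, _⟩
      exact hx ⟨h1, h2⟩
  have h4 : 0 < Fintype.card F ^ (k * Fintype.card ι) := pow_pos Fintype.card_pos _
  refine Nat.le_of_mul_le_mul_right (c := Fintype.card F ^ (k * Fintype.card ι)) ?_ h4
  rw [mul_assoc, ← pow_add, h1, sum_mul]
  refine le_trans (sum_le_card_nsmul _ _ (Fintype.card F ^ (k * n)) ?_) ?_
  · rintro ⟨v, a⟩ hx
    simp only [mem_filter, mem_univ, true_and] at hx
    obtain ⟨hv, l, hl, hal⟩ := hx
    refine le_trans (Nat.mul_le_mul_left _ (Nat.pow_le_pow_right Fintype.card_pos ?_))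
      (kt_dep_card S (S i) hv a l hal)
    rw [h2]
    have := hfar i l (Ne.symm hl)
    omega
  · rw [smul_eq_mul, mul_right_comm]
    apply Nat.mul_le_mul_right
    refine (card_filter_le _ _).trans ?_
    rw [Finset.card_univ, Fintype.card_prod, Fintype.card_fun, Fintype.card_fun, Fintype.card_fun,
      Fintype.card_fin, pow_mul, mul_comm]

open Classical in
lemma li_card_ge {ι : Type} [Fintype ι] (hr : Fintype.card ι ≤ k) :
    (Fintype.card F ^ k - Fintype.card F ^ (k - 1)) ^ Fintype.card ι ≤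
      (univ.filter (fun v : ι → Fin k → F => LinearIndependent F v)).card := by
  have h1 : (univ.filter (fun v : ι → Fin k → F => LinearIndependent F v)).card =
      Nat.card {s : Fin (Fintype.card ι) → (Fin k → F) // LinearIndependent F s} := by
    rw [← Fintype.card_subtype, ← Nat.card_eq_fintype_card]
    apply Nat.card_congr
    refine Equiv.subtypeEquiv (Equiv.arrowCongr (Fintype.equivFin ι) (Equiv.refl _)) ?_
    intro v
    exact (linearIndependent_equiv (Fintype.equivFin ι).symm).symm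
  rw [h1, card_linearIndependent (by rw [finrank_fin_fun]; exact hr), finrank_fin_fun]
  calc (Fintype.card F ^ k - Fintype.card F ^ (k - 1)) ^ Fintype.card ι
      = ∏ _i : Fin (Fintype.card ι), (Fintype.card F ^ k - Fintype.card F ^ (k - 1)) := by simp
    _ ≤ _ := by
        apply prod_le_prod'
        intro i _
        apply Nat.sub_le_sub_left
        apply Nat.pow_le_pow_right Fintype.card_pos
        have := i.2
        omega

/-- Lower bound for the probability that all sets of a far family are singular. -/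
lemma prob_far_ge {ι : Type} [Fintype ι] (S : ι → Finset (Fin n))
    (hS : ∀ i, (S i).card = k) (D : ℕ) (hfar : ∀ i j, i ≠ j → D ≤ (S i \ S j).card)
    (hr : Fintype.card ι ≤ k) :
    ((1 - 1 / (Fintype.card F : ℝ)) ^ Fintype.card ι -
      Fintype.card ι * (1 + (Fintype.card F : ℝ) ^ Fintype.card ι / (Fintype.card F : ℝ) ^ D) /
        ((Fintype.card F : ℝ) ^ 2 - Fintype.card F)) / (Fintype.card F - 1 : ℝ) ^ Fintype.card ι ≤
    prob (fun M : Fin n → Fin k → F => ∀ i, Sing (S i) M) := by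
  classical
  have hq : (0 : ℝ) < (Fintype.card F : ℝ) := by exact_mod_cast Fintype.card_pos
  have hq0 : (1 : ℝ) < (Fintype.card F : ℝ) := by exact_mod_cast Fintype.one_lt_card
  have hq2 : (0 : ℝ) < (Fintype.card F : ℝ) - 1 := by linarith
  have hq3 : (0 : ℝ) < (Fintype.card F : ℝ) ^ 2 - Fintype.card F := by nlinarith
  have hsumS : ∑ i : ι, (S i).card = k * Fintype.card ι := by
    simp [hS, mul_comm]
  set q : ℝ := (Fintype.card F : ℝ) with hqdef
  set r := Fintype.card ι with hrdef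
  have hcast1 : ((Fintype.card F - 1 : ℕ) : ℝ) = q - 1 := by
    rw [Nat.cast_sub Fintype.one_lt_card.le]; simp [hqdef]
  have hcast2 : ((Fintype.card F ^ 2 - Fintype.card F : ℕ) : ℝ) = q ^ 2 - q := by
    rw [Nat.cast_sub (Nat.le_self_pow two_ne_zero _)]; simp [hqdef]
  -- the main counting inequality
  have hmain : ((∑ M : Fin n → Fin k → F, Ycount S M : ℕ) : ℝ) * (q ^ 2 - q) ≤
      (q - 1) ^ r * (q ^ 2 - q) * (cnt (fun M : Fin n → Fin k → F => ∀ i, Sing (S i) M) : ℝ) +
      ∑ i, ((∑ M : Fin n → Fin k → F, Zcount S i M : ℕ) : ℝ) := by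
    have h1 := sum_le_sum (fun M (_ : M ∈ (univ : Finset (Fin n → Fin k → F))) =>
      Ycount_bound S M)
    rw [← sum_mul, sum_add_distrib, sum_comm, ← sum_filter, sum_const, ← cnt_eq,
      smul_eq_mul] at h1
    have h2 : ((∑ M : Fin n → Fin k → F, Ycount S M : ℕ) : ℝ) *
        ((Fintype.card F ^ 2 - Fintype.card F : ℕ) : ℝ) ≤
        (cnt (fun M : Fin n → Fin k → F => ∀ i, Sing (S i) M) : ℝ) *
          (((Fintype.card F - 1 : ℕ) : ℝ) ^ r * ((Fintype.card F ^ 2 - Fintype.card F : ℕ) : ℝ)) +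
        ∑ i, ((∑ M : Fin n → Fin k → F, Zcount S i M : ℕ) : ℝ) := by
      exact_mod_cast h1
    rw [hcast1, hcast2] at h2
    linarith
  set T : ℝ := q ^ (k * n) with hT
  have hTpos : 0 < T := by positivity
  have hZ : ∀ i, ((∑ M : Fin n → Fin k → F, Zcount S i M : ℕ) : ℝ) ≤
      (1 + q ^ r / q ^ D) * T := by
    intro i
    have h1 : (∑ M : Fin n → Fin k → F, Zcount S i M) ≤
        (∑ M : Fin n → Fin k → F, Ycount (fun o : Option ι => o.elim (S i) S) M) +
        (∑ M : Fin n → Fin k → F, Wcount S i M) := by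
      rw [← sum_add_distrib]
      exact sum_le_sum (fun M _ => Zcount_le S i M)
    have h2 := sum_Ycount_le (F := F) (k := k) (fun o : Option ι => o.elim (S i) S) (by
      rintro (_ | j)
      · exact hS i
      · exact hS j)
    have h3 := sum_Wcount_le (F := F) S i hS D hfar
    have h3' : ((∑ M : Fin n → Fin k → F, Wcount S i M : ℕ) : ℝ) * q ^ D ≤ q ^ r * T := by
      rw [hT, hqdef]; exact_mod_cast h3
    have h2' : ((∑ M : Fin n → Fin k → F, Ycount (fun o : Option ι => o.elim (S i) S) M : ℕ) : ℝ)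
        ≤ T := by
      rw [hT, hqdef]; exact_mod_cast h2
    have h1' : ((∑ M : Fin n → Fin k → F, Zcount S i M : ℕ) : ℝ) ≤
        ((∑ M : Fin n → Fin k → F, Ycount (fun o : Option ι => o.elim (S i) S) M : ℕ) : ℝ) +
        ((∑ M : Fin n → Fin k → F, Wcount S i M : ℕ) : ℝ) := by exact_mod_cast h1
    have h4 : ((∑ M : Fin n → Fin k → F, Wcount S i M : ℕ) : ℝ) ≤ q ^ r / q ^ D * T := by
      rw [div_mul_eq_mul_div, le_div_iff₀ (by positivity)]
      exact h3'
    calc _ ≤ _ := h1'
      _ ≤ T + q ^ r / q ^ D * T := add_le_add h2' h4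
      _ = _ := by ring
  have hsumZ : ∑ i, ((∑ M : Fin n → Fin k → F, Zcount S i M : ℕ) : ℝ) ≤
      r * ((1 + q ^ r / q ^ D) * T) := by
    refine (sum_le_sum (fun i _ => hZ i)).trans (le_of_eq ?_)
    simp [hrdef]
  -- lower bound for the sum of Y
  have hY : (1 - 1 / q) ^ r * T ≤ ((∑ M : Fin n → Fin k → F, Ycount S M : ℕ) : ℝ) := by
    have h1 := sum_Ycount (F := F) (k := k) S
    have h2 := li_card_ge (F := F) (k := k) hr
    rw [hsumS] at h1
    have h1' : ((∑ M : Fin n → Fin k → F, Ycount S M : ℕ) : ℝ) * q ^ (k * r) =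
        ((univ.filter (fun v : ι → Fin k → F => LinearIndependent F v)).card : ℝ) * T := by
      rw [hT, hqdef]; exact_mod_cast h1
    have h2' : (q ^ k - q ^ (k - 1)) ^ r ≤
        ((univ.filter (fun v : ι → Fin k → F => LinearIndependent F v)).card : ℝ) := by
      have h3 : ((Fintype.card F ^ k - Fintype.card F ^ (k - 1) : ℕ) : ℝ) =
          q ^ k - q ^ (k - 1) := by
        rw [Nat.cast_sub (Nat.pow_le_pow_right Fintype.card_pos (Nat.sub_le _ _))]
        simp [hqdef]
      rw [← h3]; exact_mod_cast h2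
    by_cases hr0 : r = 0
    · rw [hr0] at h1' h2' ⊢
      simp only [pow_zero, mul_zero, mul_one] at h1' h2' ⊢
      rw [h1']
      exact mul_le_mul_of_nonneg_right h2' hTpos.le
    · have hk1 : 1 ≤ k := by
        rw [hrdef] at hr0
        omega
      have h4 : (q ^ k - q ^ (k - 1)) = q ^ k * (1 - 1 / q) := by
        have : q ^ k = q ^ (k - 1) * q := by
          rw [← pow_succ]; congr 1; omega
        rw [this]; field_simp
      rw [h4, mul_pow, ← pow_mul] at h2'
      have h5 : (0 : ℝ) < q ^ (k * r) := by positivity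
      have h6 : (1 - 1 / q) ^ r * T * q ^ (k * r) ≤
          ((∑ M : Fin n → Fin k → F, Ycount S M : ℕ) : ℝ) * q ^ (k * r) := by
        rw [h1']
        calc (1 - 1 / q) ^ r * T * q ^ (k * r) = (q ^ (k * r) * (1 - 1 / q) ^ r) * T := by ring
          _ ≤ _ := mul_le_mul_of_nonneg_right h2' hTpos.le
      exact le_of_mul_le_mul_right h6 h5
  have hprob : prob (fun M : Fin n → Fin k → F => ∀ i, Sing (S i) M) =
      (cnt (fun M : Fin n → Fin k → F => ∀ i, Sing (S i) M) : ℝ) / T := by
    unfold prob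
    rw [card_mat, hT, hqdef]
    push_cast
    rfl
  rw [hprob]
  set c : ℝ := (cnt (fun M : Fin n → Fin k → F => ∀ i, Sing (S i) M) : ℝ) with hc
  rw [div_le_div_iff₀ (by positivity) hTpos]
  have h7 : (1 - 1 / q) ^ r * T * (q ^ 2 - q) ≤
      (q - 1) ^ r * (q ^ 2 - q) * c + r * ((1 + q ^ r / q ^ D) * T) :=
    (mul_le_mul_of_nonneg_right hY hq3.le).trans (hmain.trans (by linarith))
  have h8 : ((1 - 1 / q) ^ r - r * (1 + q ^ r / q ^ D) / (q ^ 2 - q)) * T * (q ^ 2 - q) =
      (1 - 1 / q) ^ r * T * (q ^ 2 - q) - r * ((1 + q ^ r / q ^ D) * T) := by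
    field_simp
  have h9 : ((1 - 1 / q) ^ r - r * (1 + q ^ r / q ^ D) / (q ^ 2 - q)) * T * (q ^ 2 - q) ≤
      c * (q - 1) ^ r * (q ^ 2 - q) := by
    rw [h8]; linarith
  exact le_of_mul_le_mul_right h9 hq3

end Lower

end Pool.Agent.Lib.MP_498a73_pr
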