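import Pool.Agent.Lib.MP_498a73_pr.Small

set_option autoImplicit false

namespace Pool.Agent.Lib.MP_498a73_pr

open Finset Module

/-- No nonzero codeword vanishes on a `k`-set of coordinates. -/
def QC {F : Type} [Field F] {n : ℕ} (k : ℕ) (C : Submodule F (Fin n → F)) : Prop :=
  ∀ S : Finset (Fin n), S.card = k → ∀ x ∈ C, (∀ s ∈ S, x s = 0) → x = 0

/-- The MDS property in terms of zeros of codewords. -/
lemma isMDS_iff {F : Type} [Field F] {n k : ℕ} (C : Submodule F (Fin n → F))
    (hC : finrank F C = k) (hk : 1 ≤ k) (hkn : k ≤ n) : IsMDS C ↔ QC k C := by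
  classical
  unfold IsMDS minDist
  rw [hC]
  set A : Set ℕ := {d : ℕ | ∃ x ∈ C, ∃ y ∈ C, x ≠ y ∧
    @hammingDist (Fin n) (fun _ => F) _ (fun _ => Classical.decEq F) x y = d} with hA
  have hz : ∀ x y : Fin n → F, @hammingDist (Fin n) (fun _ => F) _ (fun _ => Classical.decEq F) x y =
      n - (univ.filter (fun i => x i = y i)).card := by
    intro x y
    have h1 := card_filter_add_card_filter_not (s := (univ : Finset (Fin n))) (fun i => x i = y i)
    rw [card_univ, Fintype.card_fin] at h1
    have h2 : @hammingDist (Fin n) (fun _ => F) _ (fun _ => Classical.decEq F) x y =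
        (univ.filter (fun i => ¬ x i = y i)).card := by
      unfold hammingDist
      congr
    rw [h2]; omega
  constructor
  · intro h S hS x hx hxS
    by_contra hx0
    have h1 : @hammingDist (Fin n) (fun _ => F) _ (fun _ => Classical.decEq F) x 0 ∈ A :=
      ⟨x, hx, 0, C.zero_mem, hx0, rfl⟩
    have h2 := Nat.sInf_le h1
    have h3 : k ≤ (univ.filter (fun i => x i = (0 : Fin n → F) i)).card := by
      rw [← hS]
      apply card_le_card
      intro s hs
      simp only [mem_filter, mem_univ, true_and, Pi.zero_apply]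
      exact hxS s hs
    rw [hz] at h2
    omega
  · intro h
    -- a codeword vanishing on k - 1 coordinates
    obtain ⟨S', hS'⟩ : ∃ S' : Finset (Fin n), S'.card = k - 1 := by
      obtain ⟨S', _, hS'⟩ := Finset.exists_superset_card_eq (s := (∅ : Finset (Fin n))) (n := k - 1)
        (by simp) (by rw [Fintype.card_fin]; omega)
      exact ⟨S', hS'⟩
    have hex : ∃ x ∈ C, x ≠ 0 ∧ ∀ s ∈ S', x s = 0 := by
      let f : C →ₗ[F] (S' → F) := (LinearMap.funLeft F F (Subtype.val : S' → Fin n)).comp C.subtype
      have h1 : ¬ Function.Injective f := by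
        intro hinj
        have h2 := LinearMap.finrank_le_finrank_of_injective hinj
        rw [hC, finrank_fintype_fun_eq_card, Fintype.card_coe, hS'] at h2
        omega
      rw [← LinearMap.ker_eq_bot, ← Ne, Submodule.ne_bot_iff] at h1
      obtain ⟨x, hx, hx0⟩ := h1
      refine ⟨x.1, x.2, fun h => hx0 (Subtype.ext h), ?_⟩
      intro s hs
      rw [LinearMap.mem_ker] at hx
      exact congrFun hx ⟨s, hs⟩
    have hge : ∀ d ∈ A, n - k + 1 ≤ d := by
      rintro d ⟨x, hx, y, hy, hxy, rfl⟩
      rw [hz]
      have h1 : (univ.filter (fun i => x i = y i)).card < k := by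
        by_contra hcon
        push Not at hcon
        obtain ⟨S, hS1, hS2⟩ := Finset.exists_subset_card_eq hcon
        have := h S hS2 (x - y) (C.sub_mem hx hy) (by
          intro s hs
          have := hS1 hs
          simp only [mem_filter, mem_univ, true_and] at this
          simp [this])
        exact hxy (sub_eq_zero.1 this)
      omega
    obtain ⟨x, hx, hx0, hxS⟩ := hex
    have h1 : @hammingDist (Fin n) (fun _ => F) _ (fun _ => Classical.decEq F) x 0 ∈ A :=
      ⟨x, hx, 0, C.zero_mem, hx0, rfl⟩
    have h2 : @hammingDist (Fin n) (fun _ => F) _ (fun _ => Classical.decEq F) x 0 ≤ n - k + 1 := by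
      rw [hz]
      have h3 : k - 1 ≤ (univ.filter (fun i => x i = (0 : Fin n → F) i)).card := by
        rw [← hS']
        apply card_le_card
        intro s hs
        simp only [mem_filter, mem_univ, true_and, Pi.zero_apply]
        exact hxS s hs
      omega
    apply le_antisymm
    · exact (Nat.sInf_le h1).trans h2
    · exact hge _ (Nat.sInf_mem ⟨_, h1⟩)

lemma one_sub_sum_le {ι : Type} (s : Finset ι) (x : ι → ℝ) (h0 : ∀ i ∈ s, 0 ≤ x i)
    (h1 : ∀ i ∈ s, x i ≤ 1) : 1 - ∑ i ∈ s, x i ≤ ∏ i ∈ s, (1 - x i) := by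
  classical
  induction s using Finset.induction_on with
  | empty => simp
  | insert a s ha ih =>
    rw [sum_insert ha, prod_insert ha]
    have ih' := ih (fun i hi => h0 i (mem_insert_of_mem hi)) (fun i hi => h1 i (mem_insert_of_mem hi))
    have ha0 := h0 a (mem_insert_self a s)
    have ha1 := h1 a (mem_insert_self a s)
    have hs : 0 ≤ ∑ i ∈ s, x i := sum_nonneg (fun i hi => h0 i (mem_insert_of_mem hi))
    have h2 : (1 - x a) * (1 - ∑ i ∈ s, x i) ≤ (1 - x a) * ∏ i ∈ s, (1 - x i) :=
      mul_le_mul_of_nonneg_left ih' (by linarith)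
    nlinarith

section Count

variable {F : Type} [Field F] [Fintype F] {n k : ℕ}

/-- Number of ordered bases of a `k`-dimensional space. -/
noncomputable def c0 (F : Type) [Fintype F] (k : ℕ) : ℕ :=
  ∏ i : Fin k, (Fintype.card F ^ k - Fintype.card F ^ i.val)

lemma c0_pos (k : ℕ) : 0 < c0 F k := by
  unfold c0
  apply prod_pos
  intro i _
  have : Fintype.card F ^ i.val < Fintype.card F ^ k :=
    Nat.pow_lt_pow_right Fintype.one_lt_card i.2
  omega

lemma fiber_card (C : Submodule F (Fin n → F)) (hC : finrank F C = k) :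
    cnt (fun g : Fin k → Fin n → F => LinearIndependent F g ∧
      Submodule.span F (Set.range g) = C) = c0 F k := by
  classical
  unfold c0
  have h1 := card_linearIndependent (K := F) (V := C) (k := k) (by rw [hC])
  rw [hC] at h1
  rw [← h1, cnt_eq, ← Fintype.card_subtype, ← Nat.card_eq_fintype_card]
  symm
  apply Nat.card_congr
  refine Equiv.ofBijective (fun h : {s : Fin k → C // LinearIndependent F s} =>
    (⟨fun i => (h.1 i : Fin n → F), ?_, ?_⟩ : {g : Fin k → Fin n → F //
      LinearIndependent F g ∧ Submodule.span F (Set.range g) = C})) ⟨?_, ?_⟩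
  · exact h.2.map' C.subtype (Submodule.ker_subtype C)
  · apply Submodule.eq_of_le_of_finrank_eq
    · rw [Submodule.span_le]
      rintro _ ⟨i, rfl⟩
      exact (h.1 i).2
    · have hli : LinearIndependent F (fun i => (h.1 i : Fin n → F)) :=
        h.2.map' C.subtype (Submodule.ker_subtype C)
      rw [finrank_span_eq_card hli, hC, Fintype.card_fin]
  · intro a b hab
    apply Subtype.ext
    funext i
    apply Subtype.ext
    exact congrFun (congrArg Subtype.val hab) i
  · rintro ⟨g, hg1, hg2⟩
    refine ⟨⟨fun i => ⟨g i, ?_⟩, ?_⟩, ?_⟩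
    · rw [← hg2]; exact Submodule.subset_span ⟨i, rfl⟩
    · apply LinearIndependent.of_comp C.subtype
      exact hg1
    · rfl

lemma count_tuples (P : Submodule F (Fin n → F) → Prop) :
    cnt (fun g : Fin k → Fin n → F => LinearIndependent F g ∧
      P (Submodule.span F (Set.range g))) =
    Nat.card {C : Submodule F (Fin n → F) // finrank F C = k ∧ P C} * c0 F k := by
  classical
  have : Fintype (Submodule F (Fin n → F)) := Fintype.ofFinite _
  rw [cnt_eq, Nat.card_eq_fintype_card, Fintype.card_subtype]
  rw [card_eq_sum_card_fiberwise (f := fun g : Fin k → Fin n → F =>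
    Submodule.span F (Set.range g))
    (t := univ.filter (fun C : Submodule F (Fin n → F) => finrank F C = k ∧ P C))]
  · rw [← smul_eq_mul, ← sum_const]
    apply sum_congr rfl
    intro C hC
    simp only [mem_filter, mem_univ, true_and] at hC
    rw [← fiber_card C hC.1, cnt_eq]
    congr 1
    ext g
    simp only [mem_filter, mem_univ, true_and]
    constructor
    · rintro ⟨⟨h1, _⟩, h3⟩
      exact ⟨h1, h3⟩
    · rintro ⟨h1, h3⟩
      exact ⟨⟨h1, h3 ▸ hC.2⟩, h3⟩
  · intro g hg
    simp only [coe_filter, mem_univ, true_and, Set.mem_ofPred_eq] at hg ⊢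
    exact ⟨by rw [finrank_span_eq_card hg.1, Fintype.card_fin], hg.2⟩

/-- Tuples of rows and matrices of columns. -/
lemma good_eq_tuples (hk : 1 ≤ k) (hkn : k ≤ n) :
    cnt (fun g : Fin k → Fin n → F => LinearIndependent F g ∧
      IsMDS (Submodule.span F (Set.range g))) =
    cnt (fun M : Fin n → Fin k → F => ∀ S : KSet n k, ¬ Ev F n k S M) := by
  classical
  rw [cnt_eq, cnt_eq]
  have hcode : ∀ (g : Fin k → Fin n → F) (v : Fin k → F) (s : Fin n),
      v ⬝ᵥ (fun i => g i s) = (∑ i, v i • g i) s := by
    intro g v s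
    simp [dotProduct]
  apply card_bij' (fun g _ => fun s i => g i s) (fun M _ => fun i s => M s i)
  · intro g hg
    simp only [mem_filter, mem_univ, true_and] at hg ⊢
    obtain ⟨h1, h2⟩ := hg
    rw [isMDS_iff _ (by rw [finrank_span_eq_card h1, Fintype.card_fin]) hk hkn] at h2
    rintro S ⟨v, hv0, hv⟩
    have h3 := h2 S.1 S.2 (∑ i, v i • g i) (Submodule.sum_mem _ (fun i _ =>
      Submodule.smul_mem _ _ (Submodule.subset_span ⟨i, rfl⟩))) (by
        intro s hs
        rw [← hcode]
        exact hv s hs)
    rw [Fintype.linearIndependent_iff] at h1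
    exact hv0 (funext (fun i => h1 v h3 i))
  · intro M hM
    simp only [mem_filter, mem_univ, true_and] at hM ⊢
    have hli : LinearIndependent F (fun (i : Fin k) (s : Fin n) => M s i) := by
      rw [Fintype.linearIndependent_iff]
      intro v hv
      by_contra hcon
      push Not at hcon
      obtain ⟨i, hi⟩ := hcon
      obtain ⟨S, _, hS⟩ := Finset.exists_superset_card_eq (s := (∅ : Finset (Fin n))) (n := k)
        (by simp) (by rw [Fintype.card_fin]; omega)
      apply hM ⟨S, hS⟩
      refine ⟨v, fun h => hi (by rw [h]; rfl), ?_⟩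
      intro s _
      have := hcode (fun (i : Fin k) (s : Fin n) => M s i) v s
      rw [hv] at this
      exact this
    refine ⟨hli, ?_⟩
    rw [isMDS_iff _ (by rw [finrank_span_eq_card hli, Fintype.card_fin]) hk hkn]
    intro S hS x hx hxS
    rw [Submodule.mem_span_range_iff_exists_fun] at hx
    obtain ⟨v, rfl⟩ := hx
    by_contra hx0
    apply hM ⟨S, hS⟩
    refine ⟨v, ?_, ?_⟩
    · rintro rfl
      apply hx0
      simp
    · intro s hs
      have := hcode (fun (i : Fin k) (s : Fin n) => M s i) v s
      rw [hxS s hs] at this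
      exact this
  · intro g _; rfl
  · intro M _; rfl

/-- The MDS probability in terms of random matrices. -/
lemma mdsProb_eq (hk : 1 ≤ k) (hkn : k ≤ n) :
    mdsProb F n k * ∏ i : Fin k, (1 - (Fintype.card F : ℝ) ^ i.val / (Fintype.card F : ℝ) ^ n) =
      prob (fun M : Fin n → Fin k → F => ∀ S : KSet n k, ¬ Ev F n k S M) := by
  classical
  have hq : (0 : ℝ) < (Fintype.card F : ℝ) := by exact_mod_cast Fintype.card_pos
  have h1 := count_tuples (F := F) (n := n) (k := k) IsMDS
  rw [good_eq_tuples hk hkn] at h1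
  have h2 := count_tuples (F := F) (n := n) (k := k) (fun _ => True)
  simp only [and_true] at h2
  have h3 : cnt (fun g : Fin k → Fin n → F => LinearIndependent F g) =
      ∏ i : Fin k, (Fintype.card F ^ n - Fintype.card F ^ i.val) := by
    have := card_linearIndependent (K := F) (V := Fin n → F) (k := k)
      (by rw [finrank_fin_fun]; exact hkn)
    rw [finrank_fin_fun] at this
    rw [← this, cnt_eq, ← Fintype.card_subtype, ← Nat.card_eq_fintype_card]
  have h4 : ((∏ i : Fin k, (Fintype.card F ^ n - Fintype.card F ^ i.val) : ℕ) : ℝ) =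
      ((Fintype.card F : ℝ) ^ n) ^ k *
        ∏ i : Fin k, (1 - (Fintype.card F : ℝ) ^ i.val / (Fintype.card F : ℝ) ^ n) := by
    have h5 : ((Fintype.card F : ℝ) ^ n) ^ k = ∏ _i : Fin k, (Fintype.card F : ℝ) ^ n := by simp
    rw [h5, ← prod_mul_distrib]
    push_cast
    apply prod_congr rfl
    intro i _
    rw [Nat.cast_sub (Nat.pow_le_pow_right Fintype.card_pos (by have := i.2; omega))]
    push_cast
    field_simp
  rw [h3] at h2
  have hc0 : (c0 F k : ℝ) ≠ 0 := by
    have := c0_pos (F := F) k
    positivity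
  have hA : (Nat.card {C : Submodule F (Fin n → F) // finrank F C = k} : ℝ) ≠ 0 := by
    intro hcon
    have h6 : Nat.card {C : Submodule F (Fin n → F) // finrank F C = k} = 0 := by
      exact_mod_cast hcon
    rw [h6, zero_mul] at h2
    have h7 : 0 < ∏ i : Fin k, (Fintype.card F ^ n - Fintype.card F ^ i.val) := by
      apply prod_pos
      intro i _
      have : Fintype.card F ^ i.val < Fintype.card F ^ n :=
        Nat.pow_lt_pow_right Fintype.one_lt_card (by have := i.2; omega)
      omega
    omega
  unfold mdsProb prob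
  rw [card_mat, h1]
  have h2' : ((Fintype.card F : ℝ) ^ n) ^ k *
        ∏ i : Fin k, (1 - (Fintype.card F : ℝ) ^ i.val / (Fintype.card F : ℝ) ^ n) =
      (Nat.card {C : Submodule F (Fin n → F) // finrank F C = k} : ℝ) * (c0 F k : ℝ) := by
    rw [← h4]; exact_mod_cast h2
  push_cast
  have h8 : (Fintype.card F : ℝ) ^ (k * n) = ((Fintype.card F : ℝ) ^ n) ^ k := by
    rw [← pow_mul, mul_comm]
  rw [h8, div_mul_eq_mul_div, div_eq_div_iff hA (by positivity), mul_assoc,
    mul_comm (∏ i : Fin k, (1 - (Fintype.card F : ℝ) ^ i.val / (Fintype.card F : ℝ) ^ n)), h2']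
  ring

lemma prod_bounds (hkn : k ≤ n) :
    1 - 1 / ((Fintype.card F : ℝ) - 1) ≤
      ∏ i : Fin k, (1 - (Fintype.card F : ℝ) ^ i.val / (Fintype.card F : ℝ) ^ n) ∧
    ∏ i : Fin k, (1 - (Fintype.card F : ℝ) ^ i.val / (Fintype.card F : ℝ) ^ n) ≤ 1 := by
  have hq2 := two_le_card_real F
  have hq : (0 : ℝ) < (Fintype.card F : ℝ) := by linarith
  have hq1 : (1 : ℝ) ≤ (Fintype.card F : ℝ) := by linarith
  have hq3 : (0 : ℝ) < (Fintype.card F : ℝ) - 1 := by linarith
  have hle : ∀ i : Fin k, (Fintype.card F : ℝ) ^ i.val / (Fintype.card F : ℝ) ^ n ≤ 1 := by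
    intro i
    rw [div_le_one (by positivity)]
    exact pow_le_pow_right₀ hq1 (by have := i.2; omega)
  constructor
  · have h1 : 1 - ∑ i : Fin k, (Fintype.card F : ℝ) ^ i.val / (Fintype.card F : ℝ) ^ n ≤
        ∏ i : Fin k, (1 - (Fintype.card F : ℝ) ^ i.val / (Fintype.card F : ℝ) ^ n) := by
      apply one_sub_sum_le
      · intro i _; positivity
      · intro i _; exact hle i
    refine le_trans ?_ h1
    apply sub_le_sub_left
    rw [← sum_div, Fin.sum_univ_eq_sum_range (fun i => (Fintype.card F : ℝ) ^ i) k,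
      geom_sum_eq (by linarith), div_div, div_le_div_iff₀ (by positivity) hq3, one_mul]
    have h2 : (Fintype.card F : ℝ) ^ k ≤ (Fintype.card F : ℝ) ^ n :=
      pow_le_pow_right₀ hq1 hkn
    nlinarith
  · apply prod_le_one
    · intro i _
      have := hle i
      linarith
    · intro i _
      have : 0 ≤ (Fintype.card F : ℝ) ^ i.val / (Fintype.card F : ℝ) ^ n := by positivity
      linarith

end Count

section Dual

variable {F : Type} [Field F] {n k : ℕ}

lemma QC_dual (C : Submodule F (Fin n → F)) (hC : finrank F C = k) (hkn : k ≤ n)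
    (h : QC k C) : QC (n - k) ((dotForm F n).orthogonal C) := by
  classical
  intro T hT y hy hyT
  have hS : (Tᶜ).card = k := by
    rw [card_compl, Fintype.card_fin, hT]; omega
  -- the restriction map is bijective
  let f : C →ₗ[F] ((Tᶜ : Finset (Fin n)) → F) :=
    (LinearMap.funLeft F F (Subtype.val : (Tᶜ : Finset (Fin n)) → Fin n)).comp C.subtype
  have hinj : Function.Injective f := by
    rw [← LinearMap.ker_eq_bot, Submodule.eq_bot_iff]
    intro x hx
    rw [LinearMap.mem_ker] at hx
    apply Subtype.ext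
    exact h Tᶜ hS x.1 x.2 (fun s hs => congrFun hx ⟨s, hs⟩)
  have hsurj : Function.Surjective f := by
    have hfr : finrank F C = finrank F ((Tᶜ : Finset (Fin n)) → F) := by
      rw [hC, finrank_fintype_fun_eq_card, Fintype.card_coe, hS]
    exact (LinearMap.injective_iff_surjective_of_finrank_eq_finrank hfr).1 hinj
  funext s
  by_cases hs : s ∈ T
  · exact hyT s hs
  · have hs' : s ∈ Tᶜ := by rw [mem_compl]; exact hs
    obtain ⟨x, hx⟩ := hsurj (Pi.single ⟨s, hs'⟩ 1)
    rw [LinearMap.BilinForm.mem_orthogonal_iff] at hy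
    have h1 : (x : Fin n → F) ⬝ᵥ y = 0 := hy x.1 x.2
    have h2 : (x : Fin n → F) ⬝ᵥ y = y s := by
      unfold dotProduct
      rw [Finset.sum_eq_single s]
      · have h3 : (x : Fin n → F) s = 1 := by
          have := congrFun hx ⟨s, hs'⟩
          rw [Pi.single_eq_same] at this
          exact this
        rw [h3, one_mul]
      · intro t _ hts
        by_cases ht : t ∈ T
        · rw [hyT t ht, mul_zero]
        · have ht' : t ∈ Tᶜ := by rw [mem_compl]; exact ht
          have h3 : (x : Fin n → F) t = 0 := by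
            have := congrFun hx ⟨t, ht'⟩
            rw [Pi.single_eq_of_ne (by simp [hts])] at this
            exact this
          rw [h3, zero_mul]
      · intro h; exact absurd (mem_univ _) h
    rw [← h2, h1]
    rfl

lemma finrank_orth (C : Submodule F (Fin n → F)) :
    finrank F ((dotForm F n).orthogonal C) = n - finrank F C := by
  rw [LinearMap.BilinForm.finrank_orthogonal (dotForm_nondegenerate F n), finrank_fin_fun]

lemma orth_orth (C : Submodule F (Fin n → F)) :
    (dotForm F n).orthogonal ((dotForm F n).orthogonal C) = C :=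
  LinearMap.BilinForm.orthogonal_orthogonal (dotForm_nondegenerate F n) (dotForm_isRefl F n) C

lemma isMDS_orth (C : Submodule F (Fin n → F)) (hC : finrank F C = k) (hk : 1 ≤ k) (hkn : k < n)
    (h : IsMDS C) : IsMDS ((dotForm F n).orthogonal C) := by
  rw [isMDS_iff C hC hk hkn.le] at h
  rw [isMDS_iff (k := n - k) _ (by rw [finrank_orth, hC]) (by omega) (by omega)]
  exact QC_dual C hC hkn.le h

/-- Duality for the MDS probability. -/
lemma mdsProb_dual (hk : 1 ≤ k) (hkn : k < n) : mdsProb F n (n - k) = mdsProb F n k := by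
  unfold mdsProb
  congr 2
  · apply Nat.card_congr
    exact
      { toFun := fun C => ⟨(dotForm F n).orthogonal C.1, by rw [finrank_orth, C.2.1]; omega,
          isMDS_orth C.1 C.2.1 (by omega) (by omega) C.2.2⟩
        invFun := fun C => ⟨(dotForm F n).orthogonal C.1, by rw [finrank_orth, C.2.1],
          isMDS_orth C.1 C.2.1 (by omega) (by omega) C.2.2⟩
        left_inv := fun C => Subtype.ext (orth_orth C.1)
        right_inv := fun C => Subtype.ext (orth_orth C.1) }
  · apply Nat.card_congr
    exact
      { toFun := fun C => ⟨(dotForm F n).orthogonal C.1, by rw [finrank_orth, C.2]; omega⟩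
        invFun := fun C => ⟨(dotForm F n).orthogonal C.1, by rw [finrank_orth, C.2]⟩
        left_inv := fun C => Subtype.ext (orth_orth C.1)
        right_inv := fun C => Subtype.ext (orth_orth C.1) }

end Dual

end Pool.Agent.Lib.MP_498a73_pr
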