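import Pool.Agent.Lib.MP_498a73_pr.Central

set_option autoImplicit false

namespace Pool.Agent.Lib.MP_498a73_pr

open Finset Filter Topology Module

section Seq

variable {F : Type} [Field F] {k : ℕ}

/-- Every at most `k` of the columns are linearly independent. -/
def GoodM {j : ℕ} (M : Fin j → Fin k → F) : Prop :=
  ∀ S : Finset (Fin j), S.card ≤ k → LinearIndepOn F M (S : Set (Fin j))

lemma linearIndepOn_cons {j : ℕ} (x : Fin k → F) (M : Fin j → Fin k → F) (S : Finset (Fin j)) :
    LinearIndepOn F (Fin.cons x M : Fin (j + 1) → Fin k → F) ((S.map (Fin.succEmb j) :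
      Finset (Fin (j + 1))) : Set (Fin (j + 1))) ↔ LinearIndepOn F M (S : Set (Fin j)) := by
  classical
  have hinj : Function.Injective (fun i : (S : Set (Fin j)) =>
      (⟨Fin.succ i.1, by simp⟩ :
        ((S.map (Fin.succEmb j) : Finset (Fin (j + 1))) : Set (Fin (j + 1))))) := by
    intro a b h
    simp only [Subtype.mk.injEq, Fin.succ_inj] at h
    exact Subtype.ext h
  have hsurj : Function.Surjective (fun i : (S : Set (Fin j)) =>
      (⟨Fin.succ i.1, by simp⟩ :
        ((S.map (Fin.succEmb j) : Finset (Fin (j + 1))) : Set (Fin (j + 1))))) := by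
    rintro ⟨y, hy⟩
    simp only [coe_map, Set.mem_image, mem_coe] at hy
    obtain ⟨i, hi, rfl⟩ := hy
    exact ⟨⟨i, hi⟩, rfl⟩
  let e := Equiv.ofBijective _ ⟨hinj, hsurj⟩
  unfold LinearIndepOn
  rw [← linearIndependent_equiv e]
  rfl

omit [Field F] in
lemma span_cons {j : ℕ} (x : Fin k → F) (M : Fin j → Fin k → F) (S : Finset (Fin j)) :
    (Fin.cons x M : Fin (j + 1) → Fin k → F) '' ((S.map (Fin.succEmb j) :
      Finset (Fin (j + 1))) : Set (Fin (j + 1))) = M '' (S : Set (Fin j)) := by
  ext y
  simp

lemma good_cons {j : ℕ} (x : Fin k → F) (M : Fin j → Fin k → F) :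
    GoodM (Fin.cons x M : Fin (j + 1) → Fin k → F) ↔ GoodM M ∧
      ∀ S : Finset (Fin j), S.card + 1 ≤ k → x ∉ Submodule.span F (M '' (S : Set (Fin j))) := by
  classical
  constructor
  · intro h
    refine ⟨?_, ?_⟩
    · intro S hS
      rw [← linearIndepOn_cons x]
      apply h
      rw [card_map]; exact hS
    · intro S hS
      have h0 : (0 : Fin (j + 1)) ∉ S.map (Fin.succEmb j) := by
        simp only [Finset.mem_map, Fin.coe_succEmb, not_exists, not_and]
        intro i _ h
        exact Fin.succ_ne_zero i h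
      have h1 := h (insert 0 (S.map (Fin.succEmb j))) (by
        rw [card_insert_of_notMem h0, card_map]; exact hS)
      rw [coe_insert, linearIndepOn_insert (by simp), span_cons] at h1
      exact h1.2
  · rintro ⟨h1, h2⟩ S hS
    set S' : Finset (Fin j) := univ.filter (fun i => i.succ ∈ S) with hS'
    by_cases h0 : (0 : Fin (j + 1)) ∈ S
    · have hSeq : S = insert 0 (S'.map (Fin.succEmb j)) := by
        ext i
        refine Fin.cases ?_ (fun i => ?_) i
        · simp [h0]
        · simp [hS', Fin.succ_ne_zero]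
      have h0' : (0 : Fin (j + 1)) ∉ S'.map (Fin.succEmb j) := by
        simp only [Finset.mem_map, Fin.coe_succEmb, not_exists, not_and]
        intro i _ h
        exact Fin.succ_ne_zero i h
      have hcard : S'.card + 1 ≤ k := by
        rw [hSeq, card_insert_of_notMem h0', card_map] at hS
        exact hS
      rw [hSeq, coe_insert, linearIndepOn_insert (by simp), span_cons,
        linearIndepOn_cons]
      exact ⟨h1 S' (by omega), h2 S' hcard⟩
    · have hSeq : S = S'.map (Fin.succEmb j) := by
        ext i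
        refine Fin.cases ?_ (fun i => ?_) i
        · simp [h0]
        · simp [hS']
      have hcard : S'.card ≤ k := by
        rw [hSeq, card_map] at hS
        exact hS
      rw [hSeq, linearIndepOn_cons]
      exact h1 S' hcard

variable [Fintype F]

/-- Number of admissible next columns. -/
noncomputable def ext_cnt {j : ℕ} (M : Fin j → Fin k → F) : ℕ :=
  cnt (fun x : Fin k → F => ∀ S : Finset (Fin j), S.card + 1 ≤ k →
    x ∉ Submodule.span F (M '' (S : Set (Fin j))))

open Classical in
lemma good_rec (j : ℕ) :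
    cnt (fun M : Fin (j + 1) → Fin k → F => GoodM M) =
      ∑ M ∈ univ.filter (fun M : Fin j → Fin k → F => GoodM M), ext_cnt M := by
  unfold ext_cnt
  simp_rw [cnt_eq]
  rw [← card_sigma]
  apply card_bij (fun M _ => ⟨Fin.tail M, M 0⟩)
  · intro M hM
    simp only [mem_filter, mem_univ, true_and, mem_sigma] at hM ⊢
    have h := good_cons (M 0) (Fin.tail M)
    rw [Fin.cons_self_tail] at h
    exact h.1 hM
  · intro M _ M' _ h
    simp only [Sigma.mk.injEq, heq_eq_eq] at h
    rw [← Fin.cons_self_tail M, ← Fin.cons_self_tail M', h.1, h.2]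
  · rintro ⟨M, x⟩ h
    simp only [mem_filter, mem_univ, true_and, mem_sigma] at h
    refine ⟨Fin.cons x M, ?_, ?_⟩
    · simp only [mem_filter, mem_univ, true_and]
      exact (good_cons x M).2 h
    · simp

/-- The forbidden vectors. -/
def BadV {j : ℕ} (M : Fin j → Fin k → F) (x : Fin k → F) : Prop :=
  ∃ S : Finset (Fin j), S.card + 1 ≤ k ∧ x ∈ Submodule.span F (M '' (S : Set (Fin j)))

lemma ext_add_bad {j : ℕ} (M : Fin j → Fin k → F) :
    ext_cnt M + cnt (BadV M) = Fintype.card F ^ k := by
  classical
  have h1 : Fintype.card (Fin k → F) = Fintype.card F ^ k := by simp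
  rw [← h1, ← card_univ, ← card_filter_add_card_filter_not (s := univ) (BadV M), ← cnt_eq,
    add_comm]
  congr 1
  unfold ext_cnt
  rw [cnt_eq]
  congr 1
  ext x
  simp only [mem_filter, mem_univ, true_and, BadV, not_exists, not_and]

lemma card_span {s : Set (Fin k → F)} [DecidablePred (fun x => x ∈ Submodule.span F s)] :
    (univ.filter (fun x => x ∈ Submodule.span F s)).card =
      Fintype.card F ^ finrank F (Submodule.span F s) := by
  rw [← Fintype.card_subtype, Module.card_eq_pow_finrank (K := F)
    (V := (Submodule.span F s : Submodule F (Fin k → F)))]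

lemma bad_le_small {j : ℕ} (M : Fin j → Fin k → F) : cnt (BadV M) ≤ Fintype.card F ^ j := by
  classical
  rw [cnt_eq]
  refine le_trans (card_le_card (t := univ.filter (fun x => x ∈ Submodule.span F (Set.range M)))
    ?_) ?_
  · intro x hx
    simp only [mem_filter, mem_univ, true_and] at hx ⊢
    obtain ⟨S, _, hS⟩ := hx
    exact Submodule.span_mono (Set.image_subset_range _ _) hS
  · rw [card_span]
    apply Nat.pow_le_pow_right Fintype.card_pos
    have := finrank_range_le_card (R := F) M
    rw [Fintype.card_fin] at this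
    exact this

omit [Fintype F] in
lemma finrank_of_good {j : ℕ} {M : Fin j → Fin k → F} (hM : GoodM M) (S : Finset (Fin j))
    (hS : S.card ≤ k) : finrank F (Submodule.span F (M '' (S : Set (Fin j)))) = S.card := by
  classical
  have h := hM S hS
  have h1 : LinearIndependent F (fun i : {i // i ∈ S} => M i) := h
  have h2 := finrank_span_eq_card h1
  have h3 : Set.range (fun i : {i // i ∈ S} => M i) = M '' (S : Set (Fin j)) := by
    ext y; simp
  rw [h3] at h2
  rw [h2]; simp

lemma bad_le_union {j : ℕ} (hk : 1 ≤ k) (hj : k ≤ j + 1) {M : Fin j → Fin k → F} (hM : GoodM M) :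
    cnt (BadV M) ≤ j.choose (k - 1) * Fintype.card F ^ (k - 1) := by
  classical
  rw [cnt_eq]
  refine le_trans (card_le_card (t := (powersetCard (k - 1) (univ : Finset (Fin j))).biUnion
    (fun T => univ.filter (fun x => x ∈ Submodule.span F (M '' (T : Set (Fin j)))))) ?_) ?_
  · intro x hx
    simp only [mem_filter, mem_univ, true_and, mem_biUnion, mem_powersetCard, subset_univ] at hx ⊢
    obtain ⟨S, hS1, hS2⟩ := hx
    obtain ⟨T, hT1, hT2⟩ := Finset.exists_superset_card_eq (s := S) (n := k - 1) (by omega)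
      (by rw [Fintype.card_fin]; omega)
    exact ⟨T, hT2, Submodule.span_mono (Set.image_mono (by exact_mod_cast hT1)) hS2⟩
  · refine card_biUnion_le.trans ?_
    refine (sum_le_card_nsmul _ _ (Fintype.card F ^ (k - 1)) ?_).trans (le_of_eq ?_)
    · intro T hT
      rw [mem_powersetCard] at hT
      rw [card_span, finrank_of_good hM T (by omega), hT.2]
    · rw [card_powersetCard, card_univ, Fintype.card_fin, smul_eq_mul]

lemma inter_le {j : ℕ} (hk : 1 ≤ k) {M : Fin j → Fin k → F} (hM : GoodM M)
    (T T' : Finset (Fin j)) (hT : T.card = k - 1) (hT' : T'.card = k - 1) (hne : T ≠ T') :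
    (cnt (fun x : Fin k → F => x ∈ Submodule.span F (M '' (T : Set (Fin j))) ∧
      x ∈ Submodule.span F (M '' (T' : Set (Fin j))))) * Fintype.card F ≤
        Fintype.card F ^ (k - 1) := by
  classical
  set A := Submodule.span F (M '' (T : Set (Fin j))) with hA
  set B := Submodule.span F (M '' (T' : Set (Fin j))) with hB
  have h1 : ∃ t ∈ T, t ∉ T' := by
    by_contra hcon
    push Not at hcon
    exact hne (eq_of_subset_of_card_le hcon (by rw [hT, hT']))
  obtain ⟨t, ht, ht'⟩ := h1
  have h2 : M t ∉ B := by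
    have h3 := hM (insert t T') (by rw [card_insert_of_notMem ht']; omega)
    rw [coe_insert, linearIndepOn_insert (by simpa using ht')] at h3
    exact h3.2
  have h4 : A ⊓ B < A := by
    rw [SetLike.lt_iff_le_and_exists]
    refine ⟨inf_le_left, M t, Submodule.subset_span ⟨t, by simpa using ht, rfl⟩, ?_⟩
    rw [Submodule.mem_inf]
    exact fun h => h2 h.2
  have h5 := Submodule.finrank_lt_finrank_of_lt h4
  have h6 : finrank F A = k - 1 := by rw [hA, finrank_of_good hM T (by omega), hT]
  have h7 : cnt (fun x : Fin k → F => x ∈ A ∧ x ∈ B) = Fintype.card F ^ finrank F (A ⊓ B : Submodule F (Fin k → F)) := by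
    rw [cnt_eq, ← Fintype.card_subtype, ← Module.card_eq_pow_finrank (K := F)
      (V := (A ⊓ B : Submodule F (Fin k → F)))]
    apply Fintype.card_congr
    exact Equiv.subtypeEquivRight (fun x => by rw [Submodule.mem_inf])
  rw [h7, ← pow_succ]
  exact Nat.pow_le_pow_right Fintype.card_pos (by omega)

lemma bad_ge {j : ℕ} (hk : 1 ≤ k) {M : Fin j → Fin k → F} (hM : GoodM M) :
    (j.choose (k - 1) : ℝ) * (Fintype.card F : ℝ) ^ (k - 1) -
      (j.choose (k - 1) : ℝ) ^ 2 / 2 * ((Fintype.card F : ℝ) ^ (k - 1) / Fintype.card F) ≤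
      (cnt (BadV M) : ℝ) := by
  classical
  set q : ℝ := (Fintype.card F : ℝ) with hq
  have hq0 : 0 < q := by rw [hq]; exact_mod_cast Fintype.card_pos
  set P := powersetCard (k - 1) (univ : Finset (Fin j)) with hP
  set H : Finset (Fin j) → Submodule F (Fin k → F) :=
    fun T => Submodule.span F (M '' (T : Set (Fin j))) with hH
  set X : (Fin k → F) → ℝ := fun x => ∑ T ∈ P, (if x ∈ H T then (1 : ℝ) else 0) with hX
  have hPc : (P.card : ℝ) = j.choose (k - 1) := by
    rw [hP, card_powersetCard, card_univ, Fintype.card_fin]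
  -- pointwise inequality
  have hpt : ∀ x, (3 * X x - X x ^ 2) / 2 ≤ if BadV M x then (1 : ℝ) else 0 := by
    intro x
    have hXn : X x = ((P.filter (fun T => x ∈ H T)).card : ℝ) := by
      rw [hX]; simp only [sum_boole]
    set m := (P.filter (fun T => x ∈ H T)).card with hm
    rw [hXn]
    by_cases hb : BadV M x
    · rw [if_pos hb]
      have h3 : (0 : ℝ) ≤ ((m : ℝ) - 1) * ((m : ℝ) - 2) := by
        rcases Nat.lt_or_ge m 2 with h | h
        · have : (m : ℝ) ≤ 1 := by exact_mod_cast Nat.lt_succ_iff.1 h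
          nlinarith
        · have : (2 : ℝ) ≤ m := by exact_mod_cast h
          nlinarith
      nlinarith
    · rw [if_neg hb]
      have hm0 : m = 0 := by
        rw [hm, card_eq_zero, filter_eq_empty_iff]
        intro T hT hx
        apply hb
        rw [hP, mem_powersetCard] at hT
        exact ⟨T, by omega, hx⟩
      rw [hm0]; simp
  have hsum := sum_le_sum (fun x (_ : x ∈ (univ : Finset (Fin k → F))) => hpt x)
  rw [sum_boole, ← cnt_eq] at hsum
  refine le_trans ?_ hsum
  -- first moment
  have h1 : ∑ x, X x = (j.choose (k - 1) : ℝ) * q ^ (k - 1) := by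
    rw [hX]
    simp only
    rw [sum_comm]
    have : ∀ T ∈ P, ∑ x : Fin k → F, (if x ∈ H T then (1 : ℝ) else 0) = q ^ (k - 1) := by
      intro T hT
      rw [hP, mem_powersetCard] at hT
      rw [sum_boole, card_span, finrank_of_good hM T (by omega), hT.2]
      push_cast
      rfl
    rw [sum_congr rfl this, sum_const, nsmul_eq_mul, hPc]
  -- second moment
  have h2 : ∑ x, X x ^ 2 ≤ (j.choose (k - 1) : ℝ) * q ^ (k - 1) +
      (j.choose (k - 1) : ℝ) ^ 2 * (q ^ (k - 1) / q) := by
    have e1 : ∀ x, X x ^ 2 = ∑ T ∈ P, ∑ T' ∈ P, (if x ∈ H T ∧ x ∈ H T' then (1 : ℝ) else 0) := by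
      intro x
      rw [hX, sq]
      simp only
      rw [sum_mul_sum]
      apply sum_congr rfl
      intro T _
      apply sum_congr rfl
      intro T' _
      by_cases a : x ∈ H T <;> by_cases b : x ∈ H T' <;> simp [a, b]
    have e2 : ∑ x, X x ^ 2 = ∑ T ∈ P, ∑ T' ∈ P,
        (cnt (fun x : Fin k → F => x ∈ H T ∧ x ∈ H T') : ℝ) := by
      simp_rw [e1]
      rw [sum_comm]
      apply sum_congr rfl
      intro T _
      rw [sum_comm]
      apply sum_congr rfl
      intro T' _
      rw [sum_boole, cnt_eq]
    rw [e2]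
    have e3 : ∀ T ∈ P, ∀ T' ∈ P, (cnt (fun x : Fin k → F => x ∈ H T ∧ x ∈ H T') : ℝ) ≤
        (if T = T' then q ^ (k - 1) else 0) + q ^ (k - 1) / q := by
      intro T hT T' hT'
      rw [hP, mem_powersetCard] at hT hT'
      by_cases hTT : T = T'
      · rw [if_pos hTT]
        subst hTT
        have : (cnt (fun x : Fin k → F => x ∈ H T ∧ x ∈ H T) : ℝ) = q ^ (k - 1) := by
          simp only [and_self]
          rw [cnt_eq, card_span, finrank_of_good hM T (by omega), hT.2]
          push_cast
          rfl
        rw [this]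
        have : 0 ≤ q ^ (k - 1) / q := by positivity
        linarith
      · rw [if_neg hTT, zero_add, le_div_iff₀ hq0]
        have h7 : cnt (fun x : Fin k → F => x ∈ H T ∧ x ∈ H T') * Fintype.card F ≤
            Fintype.card F ^ (k - 1) := inter_le hk hM T T' hT.2 hT'.2 hTT
        rw [hq]
        exact_mod_cast h7
    refine (sum_le_sum (fun T hT => sum_le_sum (fun T' hT' => e3 T hT T' hT'))).trans
      (le_of_eq ?_)
    simp_rw [sum_add_distrib]
    have e4 : ∀ T ∈ P, ∑ T' ∈ P, (if T = T' then q ^ (k - 1) else 0) = q ^ (k - 1) := by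
      intro T hT
      rw [sum_ite_eq, if_pos hT]
    rw [sum_congr rfl e4, sum_const, sum_const, sum_const, nsmul_eq_mul, nsmul_eq_mul,
      nsmul_eq_mul, hPc]
    ring
  have h3 : ∑ x, (3 * X x - X x ^ 2) / 2 = (3 * ∑ x, X x - ∑ x, X x ^ 2) / 2 := by
    rw [← sum_div, sum_sub_distrib, mul_sum]
  rw [h3, h1]
  linarith

end Seq

end Pool.Agent.Lib.MP_498a73_pr
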