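import Pool.Agent.Lib.MP_498a73_pr.Seq

set_option autoImplicit false

namespace Pool.Agent.Lib.MP_498a73_pr

open Finset Filter Topology Module

lemma sum_choose_range (n k : ℕ) (hk : 1 ≤ k) :
    ∑ j ∈ range n, j.choose (k - 1) = n.choose k := by
  obtain ⟨m, rfl⟩ : ∃ m, k = m + 1 := ⟨k - 1, by omega⟩
  induction n with
  | zero => simp
  | succ n ih =>
    rw [sum_range_succ, ih, Nat.add_sub_cancel, Nat.choose_succ_succ]
    ring

section Small

/-- Proportion of matrices all of whose small column sets are independent. -/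
noncomputable def gfun (F : Type) [Field F] [Fintype F] (k j : ℕ) : ℝ :=
  (cnt (fun M : Fin j → Fin k → F => GoodM M) : ℝ) / ((Fintype.card F : ℝ) ^ k) ^ j

variable {F : Type} [Field F] [Fintype F] {k : ℕ}

lemma gfun_nonneg (j : ℕ) : 0 ≤ gfun F k j := by unfold gfun; positivity

lemma gfun_zero : gfun F k 0 = 1 := by
  classical
  unfold gfun
  rw [cnt_eq, filter_true_of_mem]
  · simp
  · intro M _ S _
    have : S = ∅ := Finset.eq_empty_of_isEmpty S
    subst this
    simp

lemma gfun_rec_le (j : ℕ) (c : ℝ)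
    (h : ∀ M : Fin j → Fin k → F, GoodM M → (ext_cnt M : ℝ) ≤ c * (Fintype.card F : ℝ) ^ k) :
    gfun F k (j + 1) ≤ c * gfun F k j := by
  classical
  have hq : (0 : ℝ) < (Fintype.card F : ℝ) := by exact_mod_cast Fintype.card_pos
  unfold gfun
  rw [good_rec]
  push_cast
  have h1 : ∑ M ∈ univ.filter (fun M : Fin j → Fin k → F => GoodM M), (ext_cnt M : ℝ) ≤
      (cnt (fun M : Fin j → Fin k → F => GoodM M) : ℝ) * (c * (Fintype.card F : ℝ) ^ k) := by
    rw [cnt_eq, ← nsmul_eq_mul]
    apply sum_le_card_nsmul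
    intro M hM
    simp only [mem_filter, mem_univ, true_and] at hM
    exact h M hM
  rw [div_le_iff₀ (by positivity)]
  refine h1.trans (le_of_eq ?_)
  rw [pow_succ]
  field_simp

lemma le_gfun_rec (j : ℕ) (c : ℝ)
    (h : ∀ M : Fin j → Fin k → F, GoodM M → c * (Fintype.card F : ℝ) ^ k ≤ (ext_cnt M : ℝ)) :
    c * gfun F k j ≤ gfun F k (j + 1) := by
  classical
  have hq : (0 : ℝ) < (Fintype.card F : ℝ) := by exact_mod_cast Fintype.card_pos
  unfold gfun
  rw [good_rec]
  push_cast
  have h1 : (cnt (fun M : Fin j → Fin k → F => GoodM M) : ℝ) * (c * (Fintype.card F : ℝ) ^ k) ≤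
      ∑ M ∈ univ.filter (fun M : Fin j → Fin k → F => GoodM M), (ext_cnt M : ℝ) := by
    rw [cnt_eq, ← nsmul_eq_mul]
    apply card_nsmul_le_sum
    intro M hM
    simp only [mem_filter, mem_univ, true_and] at hM
    exact h M hM
  rw [le_div_iff₀ (by positivity)]
  refine le_trans (le_of_eq ?_) h1
  rw [pow_succ]
  field_simp

lemma ext_real {j : ℕ} (M : Fin j → Fin k → F) :
    (ext_cnt M : ℝ) + (cnt (BadV M) : ℝ) = (Fintype.card F : ℝ) ^ k := by
  exact_mod_cast ext_add_bad M

lemma gfun_le_step (hk : 1 ≤ k) (j : ℕ) :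
    gfun F k (j + 1) ≤ (1 - (j.choose (k - 1) : ℝ) / Fintype.card F +
      ((j.choose (k - 1) : ℝ) / Fintype.card F) ^ 2 / 2) * gfun F k j := by
  have hq : (0 : ℝ) < (Fintype.card F : ℝ) := by exact_mod_cast Fintype.card_pos
  apply gfun_rec_le
  intro M hM
  have h1 := ext_real M
  have h2 := bad_ge hk hM
  have h3 : (Fintype.card F : ℝ) ^ k = (Fintype.card F : ℝ) ^ (k - 1) * Fintype.card F := by
    rw [← pow_succ]; congr 1; omega
  have h4 : (1 - (j.choose (k - 1) : ℝ) / Fintype.card F +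
      ((j.choose (k - 1) : ℝ) / Fintype.card F) ^ 2 / 2) * (Fintype.card F : ℝ) ^ k =
      (Fintype.card F : ℝ) ^ k - ((j.choose (k - 1) : ℝ) * (Fintype.card F : ℝ) ^ (k - 1) -
      (j.choose (k - 1) : ℝ) ^ 2 / 2 * ((Fintype.card F : ℝ) ^ (k - 1) / Fintype.card F)) := by
    rw [h3]; field_simp; ring
  rw [h4]
  linarith

lemma le_gfun_step (hk : 1 ≤ k) (j : ℕ) (hj : k ≤ j + 1) :
    (1 - (j.choose (k - 1) : ℝ) / Fintype.card F) * gfun F k j ≤ gfun F k (j + 1) := by
  have hq : (0 : ℝ) < (Fintype.card F : ℝ) := by exact_mod_cast Fintype.card_pos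
  apply le_gfun_rec
  intro M hM
  have h1 := ext_real M
  have h2 : (cnt (BadV M) : ℝ) ≤ (j.choose (k - 1) : ℝ) * (Fintype.card F : ℝ) ^ (k - 1) := by
    exact_mod_cast bad_le_union hk hj hM
  have h3 : (Fintype.card F : ℝ) ^ k = (Fintype.card F : ℝ) ^ (k - 1) * Fintype.card F := by
    rw [← pow_succ]; congr 1; omega
  have h4 : (1 - (j.choose (k - 1) : ℝ) / Fintype.card F) * (Fintype.card F : ℝ) ^ k =
      (Fintype.card F : ℝ) ^ k - ((j.choose (k - 1) : ℝ) * (Fintype.card F : ℝ) ^ (k - 1)) := by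
    rw [h3]; field_simp
  rw [h4]
  linarith

lemma le_gfun_step_small (j : ℕ) (hj : j + 1 ≤ k) :
    (1 - 1 / (Fintype.card F : ℝ)) * gfun F k j ≤ gfun F k (j + 1) := by
  have hq : (0 : ℝ) < (Fintype.card F : ℝ) := by exact_mod_cast Fintype.card_pos
  have hq1 : (1 : ℝ) ≤ (Fintype.card F : ℝ) := by exact_mod_cast Fintype.card_pos
  apply le_gfun_rec
  intro M hM
  have h1 := ext_real M
  have h2 : (cnt (BadV M) : ℝ) ≤ (Fintype.card F : ℝ) ^ j := by
    exact_mod_cast bad_le_small M
  have h5 : (Fintype.card F : ℝ) ^ j ≤ (Fintype.card F : ℝ) ^ (k - 1) :=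
    pow_le_pow_right₀ hq1 (by omega)
  have h3 : (Fintype.card F : ℝ) ^ k = (Fintype.card F : ℝ) ^ (k - 1) * Fintype.card F := by
    rw [← pow_succ]; congr 1; omega
  have h4 : (1 - 1 / (Fintype.card F : ℝ)) * (Fintype.card F : ℝ) ^ k =
      (Fintype.card F : ℝ) ^ k - (Fintype.card F : ℝ) ^ (k - 1) := by
    rw [h3]; field_simp
  rw [h4]
  linarith

lemma gfun_le (hk : 1 ≤ k) (n : ℕ) :
    gfun F k n ≤ ∏ j ∈ range n, (1 - (j.choose (k - 1) : ℝ) / Fintype.card F +
      ((j.choose (k - 1) : ℝ) / Fintype.card F) ^ 2 / 2) := by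
  induction n with
  | zero => simp [gfun_zero]
  | succ n ih =>
    rw [prod_range_succ, mul_comm]
    refine (gfun_le_step hk n).trans (mul_le_mul_of_nonneg_left ih ?_)
    nlinarith [sq_nonneg ((n.choose (k - 1) : ℝ) / Fintype.card F - 1)]

lemma le_gfun (hk : 1 ≤ k) (n : ℕ) (hx : ∀ j < n, (j.choose (k - 1) : ℝ) / Fintype.card F ≤ 1) :
    (1 - 1 / (Fintype.card F : ℝ)) ^ (min n k) *
      ∏ j ∈ range n, (1 - (j.choose (k - 1) : ℝ) / Fintype.card F) ≤ gfun F k n := by
  have hq : (0 : ℝ) < (Fintype.card F : ℝ) := by exact_mod_cast Fintype.card_pos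
  have hq1 : (1 : ℝ) ≤ (Fintype.card F : ℝ) := by exact_mod_cast Fintype.card_pos
  have hq2 : 0 ≤ 1 - 1 / (Fintype.card F : ℝ) := by
    rw [sub_nonneg, div_le_one hq]; exact hq1
  induction n with
  | zero => simp [gfun_zero]
  | succ n ih =>
    have ih' := ih (fun j hj => hx j (by omega))
    have hxn := hx n (by omega)
    have hxn0 : 0 ≤ (n.choose (k - 1) : ℝ) / Fintype.card F := by positivity
    have hprod : 0 ≤ ∏ j ∈ range n, (1 - (j.choose (k - 1) : ℝ) / Fintype.card F) := by
      apply prod_nonneg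
      intro j hj
      have := hx j (by have := mem_range.1 hj; omega)
      linarith
    rw [prod_range_succ]
    rcases Nat.lt_or_ge n k with h | h
    · have hmin : min (n + 1) k = min n k + 1 := by omega
      rw [hmin, pow_succ]
      refine le_trans ?_ (le_gfun_step_small n h)
      calc (1 - 1 / (Fintype.card F : ℝ)) ^ (min n k) * (1 - 1 / (Fintype.card F : ℝ)) *
            ((∏ j ∈ range n, (1 - (j.choose (k - 1) : ℝ) / Fintype.card F)) *
              (1 - (n.choose (k - 1) : ℝ) / Fintype.card F))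
          = ((1 - 1 / (Fintype.card F : ℝ)) * ((1 - 1 / (Fintype.card F : ℝ)) ^ (min n k) *
            ∏ j ∈ range n, (1 - (j.choose (k - 1) : ℝ) / Fintype.card F))) *
              (1 - (n.choose (k - 1) : ℝ) / Fintype.card F) := by ring
        _ ≤ ((1 - 1 / (Fintype.card F : ℝ)) * ((1 - 1 / (Fintype.card F : ℝ)) ^ (min n k) *
            ∏ j ∈ range n, (1 - (j.choose (k - 1) : ℝ) / Fintype.card F))) * 1 := by
            apply mul_le_mul_of_nonneg_left (by linarith)
            exact mul_nonneg hq2 (mul_nonneg (pow_nonneg hq2 _) hprod)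
        _ ≤ _ := by
            rw [mul_one]
            exact mul_le_mul_of_nonneg_left ih' hq2
    · have hmin : min (n + 1) k = min n k := by omega
      rw [hmin]
      refine le_trans ?_ (le_gfun_step hk n (by omega))
      rw [← mul_assoc, mul_comm]
      exact mul_le_mul_of_nonneg_left ih' (by linarith)

lemma sum_lin (s : Finset ℕ) (x : ℕ → ℝ) (ξ : ℝ) :
    ∑ j ∈ s, (-(x j) + ξ * x j / 2) = -(∑ j ∈ s, x j) + ξ * (∑ j ∈ s, x j) / 2 := by
  rw [sum_add_distrib, sum_neg_distrib, mul_sum, sum_div]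

lemma exp_le_one_sub (x : ℝ) (hx : x < 1) : Real.exp (-(x / (1 - x))) ≤ 1 - x := by
  have h0 : 0 < 1 - x := by linarith
  have h1 := Real.add_one_le_exp (x / (1 - x))
  have h2 : x / (1 - x) + 1 = 1 / (1 - x) := by field_simp; ring
  rw [h2] at h1
  rw [Real.exp_neg]
  rw [inv_le_comm₀ (Real.exp_pos _) h0]
  rwa [one_div] at h1

/-- Two-sided bound with `ξ` an upper bound for all the ratios. -/
lemma gfun_bounds (hk : 1 ≤ k) (n : ℕ) (hn : k ≤ n) (ξ : ℝ) (hξ1 : ξ < 1)
    (hξ : ∀ j < n, (j.choose (k - 1) : ℝ) / Fintype.card F ≤ ξ) :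
    (1 - 1 / (Fintype.card F : ℝ)) ^ k *
      Real.exp (-((n.choose k : ℝ) / Fintype.card F / (1 - ξ))) ≤ gfun F k n ∧
    gfun F k n ≤ Real.exp (-((n.choose k : ℝ) / Fintype.card F) +
      ξ * ((n.choose k : ℝ) / Fintype.card F) / 2) := by
  have hq : (0 : ℝ) < (Fintype.card F : ℝ) := by exact_mod_cast Fintype.card_pos
  have hq1 : (1 : ℝ) ≤ (Fintype.card F : ℝ) := by exact_mod_cast Fintype.card_pos
  have hq2 : 0 ≤ 1 - 1 / (Fintype.card F : ℝ) := by
    rw [sub_nonneg, div_le_one hq]; exact hq1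
  have hsum : ∑ j ∈ range n, (j.choose (k - 1) : ℝ) / Fintype.card F =
      (n.choose k : ℝ) / Fintype.card F := by
    rw [← sum_div, ← sum_choose_range n k hk]
    push_cast
    rfl
  constructor
  · have h1 := le_gfun (F := F) hk n (fun j hj => (hξ j hj).trans hξ1.le)
    have hmin : min n k = k := by omega
    rw [hmin] at h1
    refine le_trans (mul_le_mul_of_nonneg_left ?_ (pow_nonneg hq2 _)) h1
    have h2 : ∀ j ∈ range n, Real.exp (-((j.choose (k - 1) : ℝ) / Fintype.card F / (1 - ξ))) ≤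
        1 - (j.choose (k - 1) : ℝ) / Fintype.card F := by
      intro j hj
      have h3 := hξ j (mem_range.1 hj)
      refine le_trans (Real.exp_le_exp.2 ?_) (exp_le_one_sub _ (lt_of_le_of_lt h3 hξ1))
      rw [neg_le_neg_iff]
      apply div_le_div_of_nonneg_left (by positivity) (by linarith) (by linarith)
    have h4 := prod_le_prod (fun j _ => (Real.exp_pos _).le) h2
    rw [← Real.exp_sum, sum_neg_distrib, ← sum_div, hsum] at h4
    exact h4
  · refine (gfun_le hk n).trans ?_
    have h2 : ∀ j ∈ range n, 1 - (j.choose (k - 1) : ℝ) / Fintype.card F +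
        ((j.choose (k - 1) : ℝ) / Fintype.card F) ^ 2 / 2 ≤
        Real.exp (-((j.choose (k - 1) : ℝ) / Fintype.card F) +
          ξ * ((j.choose (k - 1) : ℝ) / Fintype.card F) / 2) := by
      intro j hj
      have h3 := hξ j (mem_range.1 hj)
      have h5 : 0 ≤ (j.choose (k - 1) : ℝ) / Fintype.card F := by positivity
      have h4 := Real.add_one_le_exp (-((j.choose (k - 1) : ℝ) / Fintype.card F) +
          ξ * ((j.choose (k - 1) : ℝ) / Fintype.card F) / 2)
      refine le_trans ?_ h4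
      nlinarith
    have h4 := prod_le_prod (fun j _ => by
      nlinarith [sq_nonneg ((j.choose (k - 1) : ℝ) / Fintype.card F - 1)]) h2
    rw [← Real.exp_sum, sum_lin _ (fun j => (j.choose (k - 1) : ℝ) / Fintype.card F), hsum] at h4
    exact h4

/-- For `k ≤ n`, goodness is the absence of singular `k`-sets. -/
lemma good_iff {n : ℕ} (hn : k ≤ n) (M : Fin n → Fin k → F) :
    GoodM M ↔ ∀ S : KSet n k, ¬ Ev F n k S M := by
  classical
  have key : ∀ S : Finset (Fin n), S.card = k →
      (LinearIndepOn F M (S : Set (Fin n)) ↔ ¬ Sing S M) := by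
    intro S hS
    have h1 := finrank_perp (F := F) (k := k) (M '' (S : Set (Fin n)))
    have h3 : Set.range (fun i : {i // i ∈ S} => M i) = M '' (S : Set (Fin n)) := by
      ext y; simp
    have h2 : LinearIndepOn F M (S : Set (Fin n)) ↔
        finrank F (Submodule.span F (M '' (S : Set (Fin n)))) = k := by
      have h4 : LinearIndepOn F M (S : Set (Fin n)) ↔
          LinearIndependent F (fun i : {i // i ∈ S} => M i) := Iff.rfl
      rw [h4, linearIndependent_iff_card_eq_finrank_span, Set.finrank, h3]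
      simp only [Fintype.card_coe, hS]
      exact eq_comm
    have h5 : Sing S M ↔ perp (M '' (S : Set (Fin n))) ≠ ⊥ := by
      rw [Submodule.ne_bot_iff]
      unfold Sing
      constructor
      · rintro ⟨v, hv0, hv⟩
        refine ⟨v, ?_, hv0⟩
        rw [mem_perp]
        rintro u ⟨s, hs, rfl⟩
        rw [dotProduct_comm]
        exact hv s hs
      · rintro ⟨v, hv, hv0⟩
        refine ⟨v, hv0, fun s hs => ?_⟩
        rw [mem_perp] at hv
        rw [dotProduct_comm]
        exact hv _ ⟨s, hs, rfl⟩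
    rw [h2, h5, not_not, ← Submodule.finrank_eq_zero (R := F)]
    omega
  constructor
  · intro h S
    exact (key S.1 S.2).1 (h S.1 S.2.le)
  · intro h S hS
    obtain ⟨T, hT1, hT2⟩ := Finset.exists_superset_card_eq (s := S) (n := k) hS
      (by rw [Fintype.card_fin]; exact hn)
    exact ((key T hT2).2 (h ⟨T, hT2⟩)).mono (by exact_mod_cast hT1)

lemma gfun_eq_prob {n : ℕ} (hn : k ≤ n) :
    gfun F k n = prob (fun M : Fin n → Fin k → F => ∀ S : KSet n k, ¬ Ev F n k S M) := by
  have h1 : (fun M : Fin n → Fin k → F => GoodM M) =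
      (fun M : Fin n → Fin k → F => ∀ S : KSet n k, ¬ Ev F n k S M) := by
    funext M
    exact propext (good_iff hn M)
  unfold gfun prob
  rw [h1]
  congr 1
  simp

end Small

/-- The Poisson limit when `k` stays bounded. -/
theorem bounded_case (n k : ℕ → ℕ) (F : ℕ → Type) [∀ j, Field (F j)] [∀ j, Fintype (F j)]
    (lam : ℝ) (B : ℕ) (hk1 : ∀ j, 1 ≤ k j) (hkn : ∀ j, k j ≤ n j) (hkB : ∀ j, k j ≤ B)
    (hn : Tendsto n atTop atTop)
    (hq : Tendsto (fun j => Fintype.card (F j)) atTop atTop)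
    (hN : Tendsto (fun j => ((n j).choose (k j) : ℝ) / Fintype.card (F j)) atTop (𝓝 lam)) :
    Tendsto (fun j => prob (fun M : Fin (n j) → Fin (k j) → F j =>
      ∀ S : KSet (n j) (k j), ¬ Ev (F j) (n j) (k j) S M)) atTop (𝓝 (Real.exp (-lam))) := by
  have hqR : Tendsto (fun j => (Fintype.card (F j) : ℝ)) atTop atTop :=
    tendsto_natCast_atTop_atTop.comp hq
  have hnR : Tendsto (fun j => (n j : ℝ)) atTop atTop :=
    tendsto_natCast_atTop_atTop.comp hn
  -- the bound on the ratios
  have hξ : Tendsto (fun j => (B : ℝ) / n j * (((n j).choose (k j) : ℝ) / Fintype.card (F j)))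
      atTop (𝓝 0) := by
    have h1 : Tendsto (fun j => (B : ℝ) / n j) atTop (𝓝 0) := tendsto_const_nhds.div_atTop hnR
    have h2 := h1.mul hN
    rwa [zero_mul] at h2
  have hlow : Tendsto (fun j => (1 - 1 / (Fintype.card (F j) : ℝ)) ^ B *
      Real.exp (-(((n j).choose (k j) : ℝ) / Fintype.card (F j) /
        (1 - (B : ℝ) / n j * (((n j).choose (k j) : ℝ) / Fintype.card (F j)))))) atTop
        (𝓝 (Real.exp (-lam))) := by
    have h1 : Tendsto (fun j => (1 - 1 / (Fintype.card (F j) : ℝ)) ^ B) atTop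
        (𝓝 ((1 - 0) ^ B)) := by
      apply Tendsto.pow
      apply Tendsto.sub tendsto_const_nhds
      exact tendsto_const_nhds.div_atTop hqR
    have h2 : Tendsto (fun j => Real.exp (-(((n j).choose (k j) : ℝ) / Fintype.card (F j) /
        (1 - (B : ℝ) / n j * (((n j).choose (k j) : ℝ) / Fintype.card (F j)))))) atTop
        (𝓝 (Real.exp (-(lam / (1 - 0))))) := by
      apply (Real.continuous_exp.tendsto _).comp
      apply Tendsto.neg
      apply hN.div (Tendsto.sub tendsto_const_nhds hξ)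
      norm_num
    have h3 := h1.mul h2
    simpa using h3
  have hup : Tendsto (fun j => Real.exp (-(((n j).choose (k j) : ℝ) / Fintype.card (F j)) +
      (B : ℝ) / n j * (((n j).choose (k j) : ℝ) / Fintype.card (F j)) *
        (((n j).choose (k j) : ℝ) / Fintype.card (F j)) / 2)) atTop
        (𝓝 (Real.exp (-lam))) := by
    have h1 : Tendsto (fun j => (-(((n j).choose (k j) : ℝ) / Fintype.card (F j)) +
      (B : ℝ) / n j * (((n j).choose (k j) : ℝ) / Fintype.card (F j)) *
        (((n j).choose (k j) : ℝ) / Fintype.card (F j)) / 2)) atTop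
        (𝓝 (-lam + 0 * lam / 2)) := by
      apply Tendsto.add hN.neg
      exact (hξ.mul hN).div_const 2
    have h2 := (Real.continuous_exp.tendsto _).comp h1
    simpa [Function.comp_def] using h2
  have hev : ∀ᶠ j in atTop, (B : ℝ) / n j *
      (((n j).choose (k j) : ℝ) / Fintype.card (F j)) < 1 :=
    hξ.eventually (gt_mem_nhds one_pos)
  have hbound : ∀ᶠ j in atTop, (1 - 1 / (Fintype.card (F j) : ℝ)) ^ (k j) *
      Real.exp (-(((n j).choose (k j) : ℝ) / Fintype.card (F j) /
        (1 - (B : ℝ) / n j * (((n j).choose (k j) : ℝ) / Fintype.card (F j))))) ≤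
        gfun (F j) (k j) (n j) ∧ gfun (F j) (k j) (n j) ≤
        Real.exp (-(((n j).choose (k j) : ℝ) / Fintype.card (F j)) +
      (B : ℝ) / n j * (((n j).choose (k j) : ℝ) / Fintype.card (F j)) *
        (((n j).choose (k j) : ℝ) / Fintype.card (F j)) / 2) := by
    filter_upwards [hev, hn.eventually_ge_atTop 1] with j h1 h2
    apply gfun_bounds (hk1 j) (n j) (hkn j) _ h1
    intro i hi
    have hq0 : (0 : ℝ) < (Fintype.card (F j) : ℝ) := by exact_mod_cast Fintype.card_pos
    have hn0 : (0 : ℝ) < (n j : ℝ) := by exact_mod_cast h2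
    have e1 : (i.choose (k j - 1) : ℝ) ≤ ((n j - 1).choose (k j - 1) : ℝ) := by
      exact_mod_cast Nat.choose_le_choose _ (by omega)
    have e2 : ((n j - 1).choose (k j - 1) : ℝ) * n j = (k j : ℝ) * ((n j).choose (k j) : ℝ) := by
      obtain ⟨m, hm⟩ : ∃ m, n j = m + 1 := ⟨n j - 1, by omega⟩
      obtain ⟨l, hl⟩ : ∃ l, k j = l + 1 := ⟨k j - 1, by have := hk1 j; omega⟩
      rw [hm, hl, Nat.add_sub_cancel, Nat.add_sub_cancel]
      have := Nat.add_one_mul_choose_eq m l
      have h3 : ((m + 1 : ℕ) : ℝ) * (m.choose l : ℝ) = ((m + 1).choose (l + 1) : ℝ) *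
        ((l + 1 : ℕ) : ℝ) := by exact_mod_cast this
      linarith
    have e3 : ((n j - 1).choose (k j - 1) : ℝ) = (k j : ℝ) / n j * ((n j).choose (k j) : ℝ) := by
      field_simp
      linarith
    calc (i.choose (k j - 1) : ℝ) / Fintype.card (F j)
        ≤ ((n j - 1).choose (k j - 1) : ℝ) / Fintype.card (F j) := by gcongr
      _ = (k j : ℝ) / n j * (((n j).choose (k j) : ℝ) / Fintype.card (F j)) := by
          rw [e3]; ring
      _ ≤ _ := by
          have : (k j : ℝ) ≤ B := by exact_mod_cast hkB j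
          gcongr
  have hfun : (fun j => prob (fun M : Fin (n j) → Fin (k j) → F j =>
      ∀ S : KSet (n j) (k j), ¬ Ev (F j) (n j) (k j) S M)) =
      (fun j => gfun (F j) (k j) (n j)) := by
    funext j
    rw [gfun_eq_prob (hkn j)]
  rw [hfun]
  refine tendsto_of_tendsto_of_tendsto_of_le_of_le' hlow hup ?_ ?_
  · filter_upwards [hbound] with j hj
    refine le_trans (mul_le_mul_of_nonneg_right ?_ (Real.exp_pos _).le) hj.1
    have hq2 := two_le_card_real (F j)
    have hq0 : (0 : ℝ) < (Fintype.card (F j) : ℝ) := by linarith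
    apply pow_le_pow_of_le_one
    · rw [sub_nonneg, div_le_one hq0]; linarith
    · have : 0 ≤ 1 / (Fintype.card (F j) : ℝ) := by positivity
      linarith
    · exact hkB j
  · filter_upwards [hbound] with j hj
    exact hj.2

end Pool.Agent.Lib.MP_498a73_pr
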